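import Pool.Agent.H82R2.UPG.Defs

namespace H82R2.UPG
open Classical
variable (p : Par)

namespace Bwd

/-! ### `TR` is surjective -/

/-- the right neighbour of cell `m` -/
noncomputable def rn (s : ℕ → St p) : ℕ → St p
  | 0 => port p
  | m + 1 => s m

/-- the exchange of registers across the edges -/
noncomputable def G (s : ℕ → St p) (m : ℕ) : St p :=
  ((s m).1,
    if (s (m + 1)).1 = none ∧ (s m).1 = none ∧ (s m).2.2.1 ≠ p.e then (s (m + 1)).2.2.2
      else (s m).2.1,
    (s m).2.2.1,
    if (s m).1 = none ∧ (rn p s m).1 = none ∧ (rn p s m).2.2.1 ≠ p.e then (rn p s m).2.1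
      else (s m).2.2.2)

theorem TR_eq (s : ℕ → St p) (m : ℕ) :
    TR p s m = ((s m).1, if (s m).1 = none then p.pi (G p s m).2 else (s m).2) := by
  cases m <;> rfl

theorem TR_of_ne {s : ℕ → St p} {m : ℕ} (h : (s m).1 ≠ none) : TR p s m = s m := by
  rw [TR_eq, if_neg h]

theorem TR_fst (s : ℕ → St p) (m : ℕ) : (TR p s m).1 = (s m).1 := by
  rw [TR_eq]

theorem G_fst (s : ℕ → St p) (m : ℕ) : (G p s m).1 = (s m).1 := rfl

theorem G_ctr (s : ℕ → St p) (m : ℕ) : (G p s m).2.2.1 = (s m).2.2.1 := rfl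

theorem G_G (s : ℕ → St p) : G p (G p s) = s := by
  funext m
  have hr : (rn p (G p s) m).1 = (rn p s m).1 ∧
      (rn p (G p s) m).2.2.1 = (rn p s m).2.2.1 := by
    cases m with
    | zero => exact ⟨rfl, rfl⟩
    | succ m => exact ⟨rfl, rfl⟩
  refine Prod.ext rfl (Prod.ext ?_ (Prod.ext rfl ?_))
  · -- left register
    show (if (G p s (m + 1)).1 = none ∧ (G p s m).1 = none ∧ (G p s m).2.2.1 ≠ p.e then
      (G p s (m + 1)).2.2.2 else (G p s m).2.1) = (s m).2.1
    rw [G_fst, G_fst, G_ctr]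
    by_cases h : (s (m + 1)).1 = none ∧ (s m).1 = none ∧ (s m).2.2.1 ≠ p.e
    · rw [if_pos h]
      show (if (s (m + 1)).1 = none ∧ (s m).1 = none ∧ (s m).2.2.1 ≠ p.e then (s m).2.1
        else (s (m + 1)).2.2.2) = (s m).2.1
      rw [if_pos h]
    · rw [if_neg h]
      show (if (s (m + 1)).1 = none ∧ (s m).1 = none ∧ (s m).2.2.1 ≠ p.e then
        (s (m + 1)).2.2.2 else (s m).2.1) = (s m).2.1
      rw [if_neg h]
  · -- right register
    show (if (G p s m).1 = none ∧ (rn p (G p s) m).1 = none ∧ (rn p (G p s) m).2.2.1 ≠ p.e then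
      (rn p (G p s) m).2.1 else (G p s m).2.2.2) = (s m).2.2.2
    rw [G_fst, hr.1, hr.2]
    by_cases h : (s m).1 = none ∧ (rn p s m).1 = none ∧ (rn p s m).2.2.1 ≠ p.e
    · rw [if_pos h]
      cases m with
      | zero => exact absurd rfl h.2.2
      | succ m =>
        have h' : (s (m + 1)).1 = none ∧ (s m).1 = none ∧ (s m).2.2.1 ≠ p.e := h
        show (if (s (m + 1)).1 = none ∧ (s m).1 = none ∧ (s m).2.2.1 ≠ p.e then
          (s (m + 1)).2.2.2 else (s m).2.1) = (s (m + 1)).2.2.2
        rw [if_pos h']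
    · rw [if_neg h]
      show (if (s m).1 = none ∧ (rn p s m).1 = none ∧ (rn p s m).2.2.1 ≠ p.e then
        (rn p s m).2.1 else (s m).2.2.2) = (s m).2.2.2
      rw [if_neg h]

theorem G_of_ne {s : ℕ → St p} {m : ℕ} (h : (s m).1 ≠ none) : G p s m = s m := by
  refine Prod.ext rfl (Prod.ext ?_ (Prod.ext rfl ?_))
  · exact if_neg (fun h' => h h'.2.1)
  · exact if_neg (fun h' => h h'.1)

/-- `TR` is surjective -/
theorem TR_surj (s1 : ℕ → St p) : ∃ s, TR p s = s1 ∧ ∀ m, (s1 m).1 ≠ none → s m = s1 m := by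
  set x : ℕ → St p := fun m => ((s1 m).1, if (s1 m).1 = none then p.pi.symm (s1 m).2
    else (s1 m).2) with hx
  have hx1 : ∀ m, (x m).1 = (s1 m).1 := fun m => rfl
  refine ⟨G p x, ?_, fun m hm => ?_⟩
  · funext m
    rw [TR_eq, G_G, G_fst, hx1]
    by_cases h : (s1 m).1 = none
    · rw [if_pos h]
      refine Prod.ext rfl ?_
      show p.pi (x m).2 = (s1 m).2
      have : (x m).2 = p.pi.symm (s1 m).2 := if_pos h
      rw [this, Equiv.apply_symm_apply]
    · rw [if_neg h, G_of_ne p (by rw [hx1]; exact h)]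
      refine Prod.ext rfl ?_
      exact if_neg h
  · rw [G_of_ne p (by rw [hx1]; exact hm)]
    refine Prod.ext rfl ?_
    exact if_neg hm

/-! ### the inverse of the exchange and emission -/

/-- inverse of `xst` -/
noncomputable def xsti (s : St p) : St p :=
  match s.1 with
  | none => s
  | some fb => (some (fb.1, (p.xi.symm (fb.2, s.2)).1), (p.xi.symm (fb.2, s.2)).2)

theorem xst_xsti (s : St p) : xst p (xsti p s) = s := by
  obtain ⟨a, q⟩ := s
  cases a with
  | none => rfl
  | some fb =>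
    show ((some (fb.1, (p.xi ((p.xi.symm (fb.2, q)).1, (p.xi.symm (fb.2, q)).2)).1),
      (p.xi ((p.xi.symm (fb.2, q)).1, (p.xi.symm (fb.2, q)).2)).2) : St p) = _
    rw [Prod.mk.eta, Equiv.apply_symm_apply]

theorem est_est (s : St p) : est p (est p s) = s := by
  unfold est
  by_cases h : s.2.2.1 = p.e
  · rw [if_pos h]
    rw [if_pos (show ((Equiv.swap none (p.out s.2.2.2) s.1, s.2) : St p).2.2.1 = p.e from h)]
    show ((Equiv.swap none (p.out s.2.2.2) (Equiv.swap none (p.out s.2.2.2) s.1), s.2) : St p) = s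
    rw [Equiv.swap_apply_self]
  · rw [if_neg h, if_neg h]

/-- inverse of `xe` -/
noncomputable def xei (s : St p) : St p := xsti p (est p s)

theorem xe_xei (s : St p) : xe p (xei p s) = s := by
  unfold xe xei
  rw [xst_xsti, est_est]

theorem est_q0 (a : Tok) : est p (a, p.q0) = (a, p.q0) := by
  unfold est
  rw [if_neg]
  exact p.hq0

theorem xe_clean (f : Bool) : xe p (some (f, false), p.q0) = (some (f, false), p.q0) := by
  unfold xe
  have : xst p (some (f, false), p.q0) = (some (f, false), p.q0) := by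
    show ((some (f, (p.xi (false, p.q0)).1), (p.xi (false, p.q0)).2) : St p) = _
    rw [p.hxi0]
  rw [this, est_q0]

theorem xei_clean : xei p (chi, p.q0) = (chi, p.q0) := by
  unfold xei
  rw [est_q0]
  have h : p.xi.symm (false, p.q0) = (false, p.q0) := by
    rw [Equiv.symm_apply_eq, p.hxi0]
  show ((some (false, (p.xi.symm (false, p.q0)).1), (p.xi.symm (false, p.q0)).2) : St p) = _
  rw [h]

/-! ### locality -/

theorem TR_congr {s t : ℕ → St p} {mu : ℕ} (h : ∀ m < mu, t m = s m) (hs : (s mu).1 ≠ none)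
    (ht : (t mu).1 ≠ none) : ∀ m < mu, TR p t m = TR p s m := by
  intro m hm
  rw [TR_eq, TR_eq, h m hm]
  refine Prod.ext rfl ?_
  have hG : G p t m = G p s m := by
    refine Prod.ext (by rw [G_fst, G_fst, h m hm]) (Prod.ext ?_ (Prod.ext ?_ ?_))
    · show (if (t (m + 1)).1 = none ∧ (t m).1 = none ∧ (t m).2.2.1 ≠ p.e then
        (t (m + 1)).2.2.2 else (t m).2.1) = (if (s (m + 1)).1 = none ∧ (s m).1 = none ∧
        (s m).2.2.1 ≠ p.e then (s (m + 1)).2.2.2 else (s m).2.1)
      rw [h m hm]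
      rcases Nat.lt_or_ge (m + 1) mu with h1 | h1
      · rw [h (m + 1) h1]
      · have h2 : m + 1 = mu := by omega
        rw [h2, if_neg (fun h' => ht h'.1), if_neg (fun h' => hs h'.1)]
    · rw [G_ctr, G_ctr, h m hm]
    · have hr : rn p t m = rn p s m := by
        cases m with
        | zero => rfl
        | succ m => exact h m (by omega)
      show (if (t m).1 = none ∧ (rn p t m).1 = none ∧ (rn p t m).2.2.1 ≠ p.e then
        (rn p t m).2.1 else (t m).2.2.2) = (if (s m).1 = none ∧ (rn p s m).1 = none ∧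
        (rn p s m).2.2.1 ≠ p.e then (rn p s m).2.1 else (s m).2.2.2)
      rw [hr, h m hm]
  rw [hG]

theorem TT_congr {s t : ℕ → St p} {mu : ℕ} (h : ∀ m < mu, t m = s m) (hs : (s mu).1 ≠ none)
    (ht : (t mu).1 ≠ none) : ∀ m < mu, TR p (TR p t) m = TR p (TR p s) m :=
  TR_congr p (TR_congr p h hs ht) (by rwa [TR_fst]) (by rwa [TR_fst])

/-- a step on the cells `< mu` which does not depend on the other cells -/
def BS (mu : ℕ) (s : ℕ → St p) (y : Tok) (s' : ℕ → St p) (z : Tok) : Prop :=
  ∀ t : ℕ → St p, (∀ m < mu, t m = s m) → (t mu).1 ≠ none →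
    (∀ m < mu, Reg p y t m = s' m) ∧ (Reg p y t mu).1 = z

theorem surj (mu : ℕ) (s' : ℕ → St p) (z : Tok) : ∃ s y, BS p mu s y s' z := by
  set s2 : ℕ → St p := fun m => if m < mu then s' m else if m = mu then (z, p.q0)
    else (chi, p.q0) with hs2
  set s1 : ℕ → St p := fun m => xei p ((s2 (m + 1)).1, (s2 m).2) with hs1
  obtain ⟨s0, h0, h0'⟩ := TR_surj p s1
  obtain ⟨s, h1, h1'⟩ := TR_surj p s0
  have hmu : s1 mu = (chi, p.q0) := by
    have e1 : s2 (mu + 1) = (chi, p.q0) := by
      simp only [hs2]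
      rw [if_neg (by omega), if_neg (by omega)]
    have e2 : s2 mu = (z, p.q0) := by
      simp only [hs2]
      rw [if_neg (by omega), if_pos trivial]
    simp only [hs1]
    rw [e1, e2, xei_clean]
  have hs0mu : (s0 mu).1 ≠ none := by
    rw [h0' mu (by rw [hmu]; simp), hmu]
    simp
  have hsmu : (s mu).1 ≠ none := by
    rw [h1' mu hs0mu]
    exact hs0mu
  have hTT : TR p (TR p s) = s1 := by rw [h1, h0]
  refine ⟨s, (s2 0).1, fun t ht htm => ?_⟩
  have hc := TT_congr p ht hsmu htm
  rw [hTT] at hc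
  have hxe : ∀ m < mu, xe p (TR p (TR p t) m) = ((s2 (m + 1)).1, (s2 m).2) := by
    intro m hm
    rw [hc m hm]
    exact xe_xei p _
  refine ⟨fun m hm => ?_, ?_⟩
  · have e1 : s2 m = s' m := by
      simp only [hs2]
      rw [if_pos hm]
    cases m with
    | zero =>
      show ((s2 0).1, (xe p (TR p (TR p t) 0)).2) = s' 0
      rw [hxe 0 hm, ← e1]
    | succ m =>
      show ((xe p (TR p (TR p t) m)).1, (xe p (TR p (TR p t) (m + 1))).2) = s' (m + 1)
      rw [hxe m (by omega), hxe (m + 1) hm, ← e1]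
  · cases mu with
    | zero =>
      show (s2 0).1 = z
      simp only [hs2]
      rw [if_neg (by omega), if_pos trivial]
    | succ m =>
      show (xe p (TR p (TR p t) m)).1 = z
      rw [hxe m (by omega)]
      simp only [hs2]
      rw [if_neg (by omega), if_pos trivial]

theorem comb {mu : ℕ} {s : ℕ → St p} {y : Tok} {s' : ℕ → St p} {z : Tok} (h : BS p mu s y s' z)
    {v : St p} (hv : v.1 ≠ none) :
    BS p (mu + 1) (Function.update s mu v) y (Function.update s' mu (z, (xe p v).2))
      (xe p v).1 := by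
  intro t ht ht'
  have htm : t mu = v := by
    rw [ht mu (by omega), Function.update_self]
  have h1 := h t (fun m hm => by
    rw [ht m (by omega), Function.update_of_ne (by omega)]) (by rw [htm]; exact hv)
  have hT : TR p (TR p t) mu = v := by
    have e1 : TR p t mu = v := by rw [TR_of_ne p (by rw [htm]; exact hv), htm]
    rw [TR_of_ne p (by rw [e1]; exact hv), e1]
  refine ⟨fun m hm => ?_, ?_⟩
  · rcases Nat.lt_or_ge m mu with h2 | h2
    · rw [h1.1 m h2, Function.update_of_ne (by omega)]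
    · have h3 : m = mu := by omega
      subst h3
      rw [Function.update_self]
      refine Prod.ext h1.2 ?_
      have : (Reg p y t m).2 = (xe p (TR p (TR p t) m)).2 := by
        cases m <;> rfl
      rw [this, hT]
  · show (xe p (TR p (TR p t) mu)).1 = (xe p v).1
    rw [hT]

/-- peeling one step off a target -/
theorem peel (mu : ℕ) (s' : ℕ → St p) : ∃ (s : ℕ → St p) (y : Tok) (f : Bool),
    BS p (mu + 1) s y s' (some (f, false)) ∧
      (s mu).2 = (p.xi.symm (false, (s' mu).2)).2 := by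
  set q' := (s' mu).2 with hq'
  obtain ⟨f, hf⟩ : ∃ f : Bool, p.out q'.2.2 ≠ some (f, false) := by
    by_cases h : p.out q'.2.2 = some (false, false)
    · exact ⟨true, by rw [h]; simp⟩
    · exact ⟨false, h⟩
  set v : St p := (some (f, (p.xi.symm (false, q')).1), (p.xi.symm (false, q')).2) with hv
  have hxe : xe p v = (some (f, false), q') := by
    have e1 : xst p v = (some (f, false), q') := by
      show ((some (f, (p.xi ((p.xi.symm (false, q')).1, (p.xi.symm (false, q')).2)).1),
        (p.xi ((p.xi.symm (false, q')).1, (p.xi.symm (false, q')).2)).2) : St p) = _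
      rw [Prod.mk.eta, Equiv.apply_symm_apply]
    unfold xe
    rw [e1]
    unfold est
    by_cases h : q'.2.1 = p.e
    · rw [if_pos h]
      refine Prod.ext ?_ rfl
      exact Equiv.swap_apply_of_ne_of_ne (by simp) (Ne.symm hf)
    · rw [if_neg h]
  obtain ⟨s0, y, h0⟩ := surj p mu s' (s' mu).1
  have h1 := comb p h0 (v := v) (by rw [hv]; simp)
  rw [hxe] at h1
  have e2 : Function.update s' mu ((s' mu).1, q') = s' := by
    rw [hq', Prod.mk.eta, Function.update_eq_self]
  refine ⟨Function.update s0 mu v, y, f, ?_, ?_⟩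
  · have h2 := h1
    simp only at h2
    rw [e2] at h2
    exact h2
  · rw [Function.update_self]

/-- reachability in a given number of steps, with pristine exit tokens -/
inductive Reach (mu : ℕ) (s : ℕ → St p) : (ℕ → St p) → ℕ → Prop
  | refl (s' : ℕ → St p) (h : ∀ m < mu, s m = s' m) : Reach mu s s' 0
  | step (s' s'' : ℕ → St p) (y : Tok) (f : Bool) (t : ℕ) (h : Reach mu s s' t)
      (hb : BS p mu s' y s'' (some (f, false))) : Reach mu s s'' (t + 1)

theorem lift {mu : ℕ} {s s' : ℕ → St p} {t : ℕ} (h : Reach p mu s s' t) (f : Bool) :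
    ∃ f' : Bool, Reach p (mu + 1) (Function.update s mu (some (f, false), p.q0))
      (Function.update s' mu (some (f', false), p.q0)) t := by
  induction h with
  | refl s' h =>
    refine ⟨f, Reach.refl _ (fun m hm => ?_)⟩
    rcases Nat.lt_or_ge m mu with h2 | h2
    · rw [Function.update_of_ne (by omega), Function.update_of_ne (by omega), h m h2]
    · have h3 : m = mu := by omega
      subst h3
      rw [Function.update_self, Function.update_self]
  | step s' s'' y g t _ hb ih =>
    obtain ⟨f1, hf1⟩ := ih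
    refine ⟨g, Reach.step _ _ y f1 t hf1 ?_⟩
    have h1 := comb p hb (v := (some (f1, false), p.q0)) (by simp)
    rw [xe_clean] at h1
    exact h1

/-- peeling `k` steps off a target -/
theorem peels (mu : ℕ) (k : ℕ) : ∀ s' : ℕ → St p, ∃ s1 : ℕ → St p,
    (s1 mu).2 = (fun q => (p.xi.symm (false, q)).2)^[k] (s' mu).2 ∧
      ∀ (X : ℕ → St p) (t : ℕ), Reach p (mu + 1) X s1 t → Reach p (mu + 1) X s' (t + k) := by
  induction k with
  | zero => exact fun s' => ⟨s', rfl, fun X t h => h⟩
  | succ k ih =>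
    intro s'
    obtain ⟨s, y, f, hb, hs⟩ := peel p mu s'
    obtain ⟨s1, h1, h2⟩ := ih s
    refine ⟨s1, ?_, fun X t h => ?_⟩
    · rw [h1, hs, Function.iterate_succ_apply]
    · have := Reach.step _ _ y f _ (h2 X t h) hb
      exact this

theorem claim (mu : ℕ) : ∀ s' : ℕ → St p,
    Reach p mu (fun _ => (chi, p.q0)) s' ((p.n + 1) * mu) := by
  induction mu with
  | zero =>
    intro s'
    exact Reach.refl _ (fun m hm => absurd hm (Nat.not_lt_zero _))
  | succ mu ih =>
    intro s'
    obtain ⟨s1, h1, h2⟩ := peels p mu p.n s'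
    rw [p.hbw] at h1
    obtain ⟨s2, y, h3⟩ := surj p mu s1 (s1 mu).1
    obtain ⟨f', h4⟩ := lift p (ih s2) false
    have e1 : Function.update (fun _ => ((chi, p.q0) : St p)) mu (some (false, false), p.q0) =
        (fun _ => (chi, p.q0)) := by
      funext m
      by_cases hm : m = mu
      · subst hm; rw [Function.update_self]
      · rw [Function.update_of_ne hm]
    rw [e1] at h4
    have h5 := comb p h3 (v := (some (f', false), p.q0)) (by simp)
    rw [xe_clean] at h5
    have e2 : Function.update s1 mu ((s1 mu).1, p.q0) = s1 := by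
      rw [← h1, Prod.mk.eta, Function.update_eq_self]
    simp only at h5
    rw [e2] at h5
    have h6 := Reach.step _ _ y f' _ h4 h5
    have h7 := h2 _ _ h6
    have e3 : (p.n + 1) * mu + 1 + p.n = (p.n + 1) * (mu + 1) := by ring
    rw [e3] at h7
    exact h7

theorem toList {mu : ℕ} {s s' : ℕ → St p} {t : ℕ} (h : Reach p mu s s' t) :
    ∃ ys : List Tok, ys.length = t ∧ ∀ x : ℕ → St p, (∀ m < mu, x m = s m) →
      (x mu).1 ≠ none → (∀ m < mu, run p x ys m = s' m) ∧ (run p x ys mu).1 ≠ none := by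
  induction h with
  | refl s' h =>
    exact ⟨[], rfl, fun x hx hxm => ⟨fun m hm => (hx m hm).trans (h m hm), hxm⟩⟩
  | step s' s'' y f t _ hb ih =>
    obtain ⟨ys, hl, hys⟩ := ih
    refine ⟨ys ++ [y], by simp [hl], fun x hx hxm => ?_⟩
    obtain ⟨h1, h2⟩ := hys x hx hxm
    have e : run p x (ys ++ [y]) = Reg p y (run p x ys) := by
      unfold run
      rw [List.foldl_append]
      rfl
    rw [e]
    obtain ⟨h3, h4⟩ := hb (run p x ys) h1 h2
    refine ⟨h3, ?_⟩
    rw [h4]
    simp

end Bwd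

open Bwd in
/-- backward control -/
theorem control (mu : ℕ) (tgt : ℕ → St p) : ∃ ys : List Tok, ys.length = (p.n + 1) * mu ∧
    ∀ s : ℕ → St p, (∀ m ≤ mu, s m = (chi, p.q0)) → ∀ m < mu, run p s ys m = tgt m := by
  obtain ⟨ys, h1, h2⟩ := toList p (claim p mu tgt)
  refine ⟨ys, h1, fun s hs m hm => ?_⟩
  exact (h2 s (fun k hk => hs k hk.le) (by rw [hs mu le_rfl]; simp)).1 m hm

end H82R2.UPG
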