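import Mathlib

/-!
# MP_903cf7_lc : a strong universal pattern generator.  Basic definitions.

Cell states are `Tok × W × W × W` : a token, a left register, a centre and a right register.
Tokens: `none` is the drive token, `some (f, b)` is an exchange token of flavour `f` carrying `b`.
One step of the automaton is `F = Shift ∘ E ∘ X ∘ T ∘ T`.
-/

namespace H82R2.UPG
open Classical

/-- tokens -/
abbrev Tok := Option (Bool × Bool)

/-- parameters of the automaton -/
structure Par where
  /-- register values -/
  W : Type
  /-- the port code -/
  e : W
  /-- the emitted token as a function of the right register -/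
  out : W → Tok
  /-- the cell permutation -/
  pi : Equiv.Perm (W × W × W)
  /-- the exchange permutation -/
  xi : Equiv.Perm (Bool × (W × W × W))
  /-- the clean register contents -/
  q0 : W × W × W
  /-- the number of exchanges that clean a cell -/
  n : ℕ
  hxi0 : xi (false, q0) = (false, q0)
  hfw : ∀ q, (fun q => (xi (false, q)).2)^[n] q = q0
  hbw : ∀ q, (fun q => (xi.symm (false, q)).2)^[n] q = q0
  hq0 : q0.2.1 ≠ e

variable (p : Par)

/-- register contents of a cell -/
abbrev Q := p.W × p.W × p.W
/-- states of a cell -/
abbrev St := Tok × p.W × p.W × p.W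

/-- the local rule of `T`: `u` left neighbour, `v` the cell, `w` right neighbour -/
noncomputable def tau (u v w : St p) : St p :=
  (v.1, if v.1 = none then
      p.pi (if u.1 = none ∧ v.1 = none ∧ v.2.2.1 ≠ p.e then u.2.2.2 else v.2.1, v.2.2.1,
        if v.1 = none ∧ w.1 = none ∧ w.2.2.1 ≠ p.e then w.2.1 else v.2.2.2)
    else v.2)

/-- the exchange -/
noncomputable def xst (s : St p) : St p :=
  match s.1 with
  | none => s
  | some fb => (some (fb.1, (p.xi (fb.2, s.2)).1), (p.xi (fb.2, s.2)).2)

/-- the emission -/
noncomputable def est (s : St p) : St p :=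
  if s.2.2.1 = p.e then (Equiv.swap none (p.out s.2.2.2) s.1, s.2) else s

/-- exchange, then emission -/
noncomputable def xe (s : St p) : St p := est p (xst p s)

/-- the global map `T` -/
noncomputable def T (x : ℤ → St p) : ℤ → St p := fun i => tau p (x (i-1)) (x i) (x (i+1))

/-- the cellular automaton -/
noncomputable def F (x : ℤ → St p) : ℤ → St p :=
  fun i => ((xe p (T p (T p x) (i+1))).1, (xe p (T p (T p x) i)).2)

/-! ### the region to the left of a port; cell `m` is the one at distance `m+1` from the port -/

/-- a port cell, seen from the region -/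
def port : St p := (none, p.e, p.e, p.e)

/-- `T` on the region -/
noncomputable def TR (s : ℕ → St p) : ℕ → St p
  | 0 => tau p (s 1) (s 0) (port p)
  | m+1 => tau p (s (m+2)) (s (m+1)) (s m)

/-- one step of the region with input token `y` -/
noncomputable def Reg (y : Tok) (s : ℕ → St p) : ℕ → St p
  | 0 => (y, (xe p (TR p (TR p s) 0)).2)
  | m+1 => ((xe p (TR p (TR p s) m)).1, (xe p (TR p (TR p s) (m+1))).2)

/-- feed the tokens `ys` into the region -/
noncomputable def run (s : ℕ → St p) (ys : List Tok) : ℕ → St p :=
  ys.foldl (fun s y => Reg p y s) s

/-- the pristine token of flavour `false` -/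
abbrev chi : Tok := some (false, false)

end H82R2.UPG
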