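import Pool.Agent.H82R2.UPG.Defs

/-!
# U1: forward cleaning
-/

namespace H82R2.UPG
open Classical
variable (p : Par)

theorem fwd_tau {u v w : St p} (h : v.1 ≠ none) : tau p u v w = v := by
  unfold tau
  rw [if_neg h]

/-- a cell with an exchange token is not changed by `T` -/
theorem fwd_TR {s : ℕ → St p} {m : ℕ} (h : (s m).1 ≠ none) : TR p s m = s m := by
  cases m with
  | zero => exact fwd_tau p h
  | succ m => exact fwd_tau p h

theorem fwd_TR2 {s : ℕ → St p} {m : ℕ} (h : (s m).1 ≠ none) : TR p (TR p s) m = s m := by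
  have h1 := fwd_TR p h
  rw [fwd_TR p (s := TR p s) (by rw [h1]; exact h), h1]

theorem fwd_est (s : St p) : (est p s).2 = s.2 := by
  unfold est
  split_ifs
  · rfl
  · rfl

theorem fwd_xe_chi : xe p (chi, p.q0) = (chi, p.q0) := by
  have h1 : xst p (chi, p.q0) = (chi, p.q0) := by
    unfold xst
    simp only [p.hxi0]
  unfold xe
  rw [h1]
  unfold est
  rw [if_neg p.hq0]

theorem fwd_xe_reg (q : Q p) : (xe p (chi, q)).2 = (p.xi (false, q)).2 := by
  unfold xe
  rw [fwd_est]
  rfl

/-- the first `k` cells are clean -/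
def Cln (k : ℕ) (s : ℕ → St p) : Prop := ∀ m < k, s m = (chi, p.q0)

theorem fwd_step {k : ℕ} {s : ℕ → St p} (h : Cln p k s) :
    Cln p k (Reg p chi s) ∧ (Reg p chi s k).1 = chi := by
  have h1 : ∀ m < k, xe p (TR p (TR p s) m) = (chi, p.q0) := by
    intro m hm
    have h2 : (s m).1 ≠ none := by rw [h m hm]; simp
    rw [fwd_TR2 p h2, h m hm, fwd_xe_chi]
  constructor
  · intro m hm
    cases m with
    | zero =>
      change (chi, (xe p (TR p (TR p s) 0)).2) = (chi, p.q0)
      rw [h1 0 hm]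
    | succ m =>
      change ((xe p (TR p (TR p s) m)).1, (xe p (TR p (TR p s) (m+1))).2) = (chi, p.q0)
      rw [h1 m (by omega), h1 (m+1) hm]
  · cases k with
    | zero => rfl
    | succ k =>
      change (xe p (TR p (TR p s) k)).1 = chi
      rw [h1 k (by omega)]

theorem fwd_reg {k : ℕ} {s : ℕ → St p} (h : (s k).1 = chi) :
    (Reg p chi s k).2 = (p.xi (false, (s k).2)).2 := by
  have h2 : (s k).1 ≠ none := by rw [h]; simp
  have h3 : (Reg p chi s k).2 = (xe p (TR p (TR p s) k)).2 := by
    cases k with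
    | zero => rfl
    | succ k => rfl
  have h4 : s k = (chi, (s k).2) := by
    rw [← h]
  rw [h3, fwd_TR2 p h2, h4, fwd_xe_reg]

theorem fwd_iter {k : ℕ} {s : ℕ → St p} (h : Cln p k s) (h1 : (s k).1 = chi) (a : ℕ) :
    Cln p k ((Reg p chi)^[a] s) ∧
      (Reg p chi)^[a] s k = (chi, (fun q => (p.xi (false, q)).2)^[a] (s k).2) := by
  induction a with
  | zero => exact ⟨h, by rw [Function.iterate_zero, id, Function.iterate_zero, id, ← h1]⟩
  | succ a ih =>
    rw [Function.iterate_succ_apply', Function.iterate_succ_apply']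
    obtain ⟨h2, h3⟩ := fwd_step p ih.1
    refine ⟨h2, ?_⟩
    have h4 : ((Reg p chi)^[a] s k).1 = chi := by rw [ih.2]
    have h5 := fwd_reg p h4
    rw [ih.2] at h5
    exact Prod.ext h3 h5

theorem fwd_clean {k : ℕ} {s : ℕ → St p} (h : Cln p k s) :
    Cln p (k + 1) ((Reg p chi)^[p.n + 1] s) := by
  rw [Function.iterate_succ_apply]
  obtain ⟨h1, h2⟩ := fwd_step p h
  obtain ⟨h3, h4⟩ := fwd_iter p h1 h2 p.n
  intro m hm
  rcases Nat.lt_succ_iff_lt_or_eq.1 hm with h5 | rfl
  · exact h3 m h5
  · rw [h4, p.hfw]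

theorem fwd_run (a : ℕ) (s : ℕ → St p) :
    run p s (List.replicate a chi) = (Reg p chi)^[a] s := by
  induction a generalizing s with
  | zero => rfl
  | succ a ih =>
    rw [List.replicate_succ, Function.iterate_succ_apply, ← ih]
    rfl

/-- forward cleaning -/
theorem run_clean (k : ℕ) (s : ℕ → St p) :
    ∀ m < k, run p s (List.replicate ((p.n + 1) * k) chi) m = (chi, p.q0) := by
  rw [fwd_run]
  change Cln p k _
  induction k with
  | zero => exact fun m hm => absurd hm (Nat.not_lt_zero m)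
  | succ k ih =>
    have h1 : (p.n + 1) * (k + 1) = (p.n + 1) + (p.n + 1) * k := by ring
    rw [h1, Function.iterate_add_apply]
    exact fwd_clean p ih

end H82R2.UPG
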