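import Pool.Agent.H82R2.UPG.StDef

/-! The initial configuration. -/

namespace H82R2.UPG
open Classical
variable {p : WPar}

/-- the initial configuration -/
theorem exists_init (p : WPar) : ∃ x : ℤ → St p.toPar,
    {i | x i ≠ (none, p.cs .o, p.cc .o, p.cs .o)}.Finite ∧ SC 0 30 (5^29) 0 x := by
  obtain ⟨v, hv⟩ : ∃ v : ℕ, v = 5 ^ 29 := ⟨_, rfl⟩
  rw [← hv]
  obtain ⟨h, hh⟩ : ∃ h : ℕ → Q p.toPar, h = fun i => if i = 0 then code p (.o, .e, .I1)
      else code p (.o, cen 30 v 0 i, .o) := ⟨_, rfl⟩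
  refine ⟨fun i => if i < 0 then (none, p.cs .o, p.cc .o, p.cs .o) else (none, h i.toNat), ?_, h,
    ?_, ?_, ?_⟩
  · refine (Set.finite_Icc (0 : ℤ) 31).subset ?_
    intro i hi
    rw [Set.mem_Icc]
    by_contra hcon
    apply hi
    simp only
    split_ifs with h1
    · rfl
    · have h2 : 31 < i.toNat := by omega
      have h3 : h i.toNat = code p (.o, .o, .o) := by
        rw [hh]
        simp only
        rw [if_neg (by omega)]
        unfold cen
        rw [if_neg (by omega), if_neg (by omega)]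
      rw [h3]
      rfl
  · intro i
    have h1 : ¬ ((0 : ℤ) + (i : ℤ) < 0) := by omega
    have h2 : ((0 : ℤ) + (i : ℤ)).toNat = i := by omega
    simp only
    rw [if_neg h1, h2]
  · rw [hh]
    simp
  · intro i hi
    refine ⟨none, ?_⟩
    rw [hh]
    simp only
    rw [if_neg (by omega)]
    rfl

end H82R2.UPG
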