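import Pool.Agent.H82R2.UPG.StDef

/-! Link lemmas (task S1, helper793). -/

namespace H82R2.UPG
open Classical
variable {p : WPar}

theorem link_xe_snd (q : Par) (c : Q q) : (xe q (none, c)).2 = c := by
  unfold xe est xst
  dsimp only
  split_ifs <;> rfl

theorem link_xe_none (q : Par) (c : Q q) (hc : c.2.1 ≠ q.e) : xe q (none, c) = (none, c) := by
  unfold xe est xst
  dsimp only
  rw [if_neg hc]

theorem link_tau_mid (q : Par) (a b c : Q q) (hb : b.2.1 ≠ q.e) (hc : c.2.1 ≠ q.e) :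
    tau q (none, a) (none, b) (none, c) = (none, q.pi (a.2.2, b.2.1, c.1)) := by
  unfold tau
  dsimp only
  rw [if_pos rfl, if_pos ⟨rfl, rfl, hb⟩, if_pos ⟨rfl, rfl, hc⟩]

theorem link_tau_port (q : Par) (u : St q) (b c : Q q) (hb : b.2.1 = q.e) (hc : c.2.1 ≠ q.e) :
    tau q u (none, b) (none, c) = (none, q.pi (b.1, b.2.1, c.1)) := by
  unfold tau
  dsimp only
  rw [if_pos rfl, if_neg (fun h => h.2.2 hb), if_pos ⟨rfl, rfl, hc⟩]

theorem link_tau_right (q : Par) (u v : St q) (c c' : St q) (hc : c.2.2.1 = q.e)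
    (hc' : c'.2.2.1 = q.e) : tau q u v c = tau q u v c' := by
  unfold tau
  rw [if_neg (fun h : v.1 = none ∧ c.1 = none ∧ c.2.2.1 ≠ q.e => h.2.2 hc),
    if_neg (fun h : v.1 = none ∧ c'.1 = none ∧ c'.2.2.1 ≠ q.e => h.2.2 hc')]

theorem link_left {P : ℤ} {h : ℕ → Q p.toPar} {x : ℤ → St p.toPar} (hx : At P h x)
    (h0 : (h 0).2.1 = p.e) : left P (T p.toPar x) = TR p.toPar (left P x) := by
  funext m
  rcases m with _ | m
  · show tau p.toPar (x (P - 1 - ((0 : ℕ) : ℤ) - 1)) (x (P - 1 - ((0 : ℕ) : ℤ)))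
      (x (P - 1 - ((0 : ℕ) : ℤ) + 1)) = tau p.toPar (x (P - 1 - ((1 : ℕ) : ℤ)))
        (x (P - 1 - ((0 : ℕ) : ℤ))) (port p.toPar)
    have e1 : P - 1 - ((0 : ℕ) : ℤ) - 1 = P - 1 - ((1 : ℕ) : ℤ) := by push_cast; ring
    have e2 : P - 1 - ((0 : ℕ) : ℤ) + 1 = P + ((0 : ℕ) : ℤ) := by push_cast; ring
    rw [e1, e2, hx 0]
    exact link_tau_right p.toPar _ _ _ _ h0 rfl
  · show tau p.toPar (x (P - 1 - ((m + 1 : ℕ) : ℤ) - 1)) (x (P - 1 - ((m + 1 : ℕ) : ℤ)))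
      (x (P - 1 - ((m + 1 : ℕ) : ℤ) + 1)) = tau p.toPar (x (P - 1 - ((m + 2 : ℕ) : ℤ)))
        (x (P - 1 - ((m + 1 : ℕ) : ℤ))) (x (P - 1 - ((m : ℕ) : ℤ)))
    have e1 : P - 1 - ((m + 1 : ℕ) : ℤ) - 1 = P - 1 - ((m + 2 : ℕ) : ℤ) := by push_cast; ring
    have e2 : P - 1 - ((m + 1 : ℕ) : ℤ) + 1 = P - 1 - ((m : ℕ) : ℤ) := by push_cast; ring
    rw [e1, e2]

theorem link_T_succ {P : ℤ} {h : ℕ → Q p.toPar} {x : ℤ → St p.toPar} (hx : At P h x)
    (h1 : ∀ i, (h (i + 1)).2.1 ≠ p.e) (i : ℕ) :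
    T p.toPar x (P + ((i + 1 : ℕ) : ℤ)) = (none, V p h (i + 1)) := by
  show tau p.toPar (x (P + ((i + 1 : ℕ) : ℤ) - 1)) (x (P + ((i + 1 : ℕ) : ℤ)))
    (x (P + ((i + 1 : ℕ) : ℤ) + 1)) = _
  have e1 : P + ((i + 1 : ℕ) : ℤ) - 1 = P + ((i : ℕ) : ℤ) := by push_cast; ring
  have e2 : P + ((i + 1 : ℕ) : ℤ) + 1 = P + ((i + 2 : ℕ) : ℤ) := by push_cast; ring
  rw [e1, e2, hx i, hx (i + 1), hx (i + 2), link_tau_mid p.toPar _ _ _ (h1 i) (h1 (i + 1))]
  rfl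

theorem link_T {P : ℤ} {h : ℕ → Q p.toPar} {x : ℤ → St p.toPar} (hx : At P h x) (h1 : WF p h) :
    At P (V p h) (T p.toPar x) := by
  intro i
  rcases i with _ | i
  · show tau p.toPar (x (P + ((0 : ℕ) : ℤ) - 1)) (x (P + ((0 : ℕ) : ℤ)))
      (x (P + ((0 : ℕ) : ℤ) + 1)) = _
    have e2 : P + ((0 : ℕ) : ℤ) + 1 = P + ((1 : ℕ) : ℤ) := by push_cast; ring
    rw [e2, hx 0, hx 1, link_tau_port p.toPar _ _ _ h1.1 (h1.2 0)]
    rfl
  · exact link_T_succ hx h1.2 i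

theorem link_T_move {P : ℤ} {h : ℕ → Q p.toPar} {x : ℤ → St p.toPar} (hx : At P h x)
    (h1 : ∀ i, (h (i + 1)).2.1 ≠ p.e) : At (P + 1) (fun i => V p h (i + 1)) (T p.toPar x) := by
  intro i
  have e1 : P + 1 + ((i : ℕ) : ℤ) = P + ((i + 1 : ℕ) : ℤ) := by push_cast; ring
  rw [e1]
  exact link_T_succ hx h1 i

/-- one step of the automaton with a port at `P` -/
theorem link {P : ℤ} {h : ℕ → Q p.toPar} {x : ℤ → St p.toPar} (hx : At P h x) (h1 : WF p h)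
    (h2 : WF p (V p h)) (h3 : ∀ i, (V p (V p h) (i+1)).2.1 ≠ p.e) :
    At P (V p (V p h)) (F p.toPar x) ∧
    left P (F p.toPar x) = Reg p.toPar (xe p.toPar (none, V p (V p h) 0)).1 (left P x) := by
  have a1 := link_T hx h1
  have a2 := link_T a1 h2
  have l1 := link_left hx h1.1
  have l2 := link_left a1 h2.1
  rw [l1] at l2
  constructor
  · intro i
    show ((xe p.toPar (T p.toPar (T p.toPar x) (P + (i : ℤ) + 1))).1,
      (xe p.toPar (T p.toPar (T p.toPar x) (P + (i : ℤ)))).2) = _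
    have e1 : P + (i : ℤ) + 1 = P + ((i + 1 : ℕ) : ℤ) := by push_cast; ring
    rw [e1, a2 i, a2 (i + 1), link_xe_snd, link_xe_none _ _ (h3 i)]
  · funext m
    rcases m with _ | m
    · show ((xe p.toPar (T p.toPar (T p.toPar x) (P - 1 - ((0 : ℕ) : ℤ) + 1))).1,
        (xe p.toPar (left P (T p.toPar (T p.toPar x)) 0)).2) = _
      have e2 : P - 1 - ((0 : ℕ) : ℤ) + 1 = P + ((0 : ℕ) : ℤ) := by push_cast; ring
      rw [e2, a2 0, l2]
      rfl
    · show ((xe p.toPar (T p.toPar (T p.toPar x) (P - 1 - ((m + 1 : ℕ) : ℤ) + 1))).1,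
        (xe p.toPar (left P (T p.toPar (T p.toPar x)) (m + 1))).2) = _
      have e2 : P - 1 - ((m + 1 : ℕ) : ℤ) + 1 = P - 1 - ((m : ℕ) : ℤ) := by push_cast; ring
      have e3 : T p.toPar (T p.toPar x) (P - 1 - ((m : ℕ) : ℤ)) =
        left P (T p.toPar (T p.toPar x)) m := rfl
      rw [e2, e3, l2]
      rfl

/-- `k` steps of the automaton with a port at `P` -/
theorem link_iter {P : ℤ} {h : ℕ → Q p.toPar} {x : ℤ → St p.toPar} (k : ℕ) (hx : At P h x)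
    (h1 : ∀ t < 2 * k, WF p ((V p)^[t] h)) (h3 : ∀ i, ((V p)^[2*k] h (i+1)).2.1 ≠ p.e) :
    At P ((V p)^[2*k] h) ((F p.toPar)^[k] x) ∧
    left P ((F p.toPar)^[k] x) = run p.toPar (left P x)
      ((List.range k).map fun i => (xe p.toPar (none, (V p)^[2*(i+1)] h 0)).1) := by
  induction k with
  | zero => exact ⟨hx, rfl⟩
  | succ k ih =>
    obtain ⟨a1, a2⟩ := ih (fun t ht => h1 t (by omega)) (h1 (2 * k) (by omega)).2
    have e1 : (V p)^[2 * (k + 1)] h = V p (V p ((V p)^[2 * k] h)) := by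
      rw [show 2 * (k + 1) = 2 * k + 1 + 1 by ring, Function.iterate_succ_apply',
        Function.iterate_succ_apply']
    have hw : WF p (V p ((V p)^[2 * k] h)) := by
      rw [← Function.iterate_succ_apply' (V p) (2 * k) h]
      exact h1 _ (by omega)
    rw [e1] at h3
    obtain ⟨b1, b2⟩ := link a1 (h1 (2 * k) (by omega)) hw h3
    rw [Function.iterate_succ_apply' (F p.toPar)]
    refine ⟨by rw [e1]; exact b1, ?_⟩
    rw [b2, a2, List.range_succ, List.map_append]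
    unfold run
    rw [List.foldl_append]
    simp only [List.map_cons, List.map_nil, List.foldl_cons, List.foldl_nil]
    rw [e1]

/-- the step in which the port moves -/
theorem link_move {P : ℤ} {h : ℕ → Q p.toPar} {x : ℤ → St p.toPar} (hx : At P h x)
    (h1 : ∀ i, (h (i+1)).2.1 ≠ p.e) (h2 : ∀ i, (V p h (i+2)).2.1 ≠ p.e)
    (h3 : ∀ i, (V p (fun i => V p h (i+1)) (i+2)).2.1 ≠ p.e) :
    At (P+2) (fun i => V p (fun i => V p h (i+1)) (i+1)) (F p.toPar x) := by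
  have a1 := link_T_move hx h1
  have a2 := link_T_move a1 (fun i => h2 i)
  have e0 : P + 1 + 1 = P + 2 := by ring
  rw [e0] at a2
  intro i
  show ((xe p.toPar (T p.toPar (T p.toPar x) (P + 2 + (i : ℤ) + 1))).1,
    (xe p.toPar (T p.toPar (T p.toPar x) (P + 2 + (i : ℤ)))).2) = _
  have e1 : P + 2 + (i : ℤ) + 1 = P + 2 + ((i + 1 : ℕ) : ℤ) := by push_cast; ring
  rw [e1, a2 i, a2 (i + 1), link_xe_snd, link_xe_none _ _ (h3 i)]

end H82R2.UPG
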