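import Pool.Agent.H82R2.UPG.StDef

/-! Link lemmas (statements). -/

namespace H82R2.UPG
open Classical
variable {p : WPar}

/-- one step of the automaton with a port at `P` -/
theorem link {P : ℤ} {h : ℕ → Q p.toPar} {x : ℤ → St p.toPar} (hx : At P h x) (h1 : WF p h)
    (h2 : WF p (V p h)) (h3 : ∀ i, (V p (V p h) (i+1)).2.1 ≠ p.e) :
    At P (V p (V p h)) (F p.toPar x) ∧
    left P (F p.toPar x) = Reg p.toPar (xe p.toPar (none, V p (V p h) 0)).1 (left P x) := sorry

/-- `k` steps of the automaton with a port at `P` -/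
theorem link_iter {P : ℤ} {h : ℕ → Q p.toPar} {x : ℤ → St p.toPar} (k : ℕ) (hx : At P h x)
    (h1 : ∀ t < 2 * k, WF p ((V p)^[t] h)) (h3 : ∀ i, ((V p)^[2*k] h (i+1)).2.1 ≠ p.e) :
    At P ((V p)^[2*k] h) ((F p.toPar)^[k] x) ∧
    left P ((F p.toPar)^[k] x) = run p.toPar (left P x)
      ((List.range k).map fun i => (xe p.toPar (none, (V p)^[2*(i+1)] h 0)).1) := sorry

/-- the step in which the port moves -/
theorem link_move {P : ℤ} {h : ℕ → Q p.toPar} {x : ℤ → St p.toPar} (hx : At P h x)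
    (h1 : ∀ i, (h (i+1)).2.1 ≠ p.e) (h2 : ∀ i, (V p h (i+2)).2.1 ≠ p.e)
    (h3 : ∀ i, (V p (fun i => V p h (i+1)) (i+2)).2.1 ≠ p.e) :
    At (P+2) (fun i => V p (fun i => V p h (i+1)) (i+1)) (F p.toPar x) := sorry

/-- the automaton has a local rule of radius 3 -/
theorem F_local (q : Par) (z : St q) : ∃ f : (Fin 7 → St q) → St q,
    ∀ (x : ℤ → St q) (i : ℤ), F q x i = f (fun a => x (i + (a : ℤ) - 3)) := sorry

end H82R2.UPG
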