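import Pool.Agent.H82R2.UPG.Tab

/-!
The automaton has a local rule of radius 3, and a fixed constant configuration.
-/

namespace H82R2.UPG
open Classical

/-- the automaton has a local rule of radius 3 -/
theorem F_local (q : Par) (z : St q) : ∃ f : (Fin 7 → St q) → St q,
    ∀ (x : ℤ → St q) (i : ℤ), F q x i = f (fun a => x (i + (a : ℤ) - 3)) := by
  refine ⟨fun u => ((xe q (tau q (tau q (u 2) (u 3) (u 4)) (tau q (u 3) (u 4) (u 5))
      (tau q (u 4) (u 5) (u 6)))).1,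
    (xe q (tau q (tau q (u 1) (u 2) (u 3)) (tau q (u 2) (u 3) (u 4))
      (tau q (u 3) (u 4) (u 5)))).2), fun x i => ?_⟩
  have h1 : i + (((1 : Fin 7) : ℕ) : ℤ) - 3 = i - 1 - 1 := by
    have : (((1 : Fin 7) : ℕ) : ℤ) = 1 := rfl
    rw [this]; ring
  have h2 : i + (((2 : Fin 7) : ℕ) : ℤ) - 3 = i - 1 := by
    have : (((2 : Fin 7) : ℕ) : ℤ) = 2 := rfl
    rw [this]; ring
  have h3 : i + (((3 : Fin 7) : ℕ) : ℤ) - 3 = i := by
    have : (((3 : Fin 7) : ℕ) : ℤ) = 3 := rfl
    rw [this]; ring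
  have h4 : i + (((4 : Fin 7) : ℕ) : ℤ) - 3 = i + 1 := by
    have : (((4 : Fin 7) : ℕ) : ℤ) = 4 := rfl
    rw [this]; ring
  have h5 : i + (((5 : Fin 7) : ℕ) : ℤ) - 3 = i + 1 + 1 := by
    have : (((5 : Fin 7) : ℕ) : ℤ) = 5 := rfl
    rw [this]; ring
  have h6 : i + (((6 : Fin 7) : ℕ) : ℤ) - 3 = i + 1 + 1 + 1 := by
    have : (((6 : Fin 7) : ℕ) : ℤ) = 6 := rfl
    rw [this]; ring
  simp only [h1, h2, h3, h4, h5, h6]
  have e1 : i + 1 - 1 = i := by ring
  have e2 : i - 1 + 1 = i := by ring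
  have e3 : i + 1 + 1 - 1 = i + 1 := by ring
  simp only [F, T, e1, e2, e3]

/-- the constant configuration of blank cells is fixed -/
theorem F_const (p : WPar) : F p.toPar (fun _ => (none, p.cs .o, p.cc .o, p.cs .o)) =
    fun _ => (none, p.cs .o, p.cc .o, p.cs .o) := by
  have hc : p.cc .o ≠ p.e := by
    intro h
    have := (p.hcc .o).1 h
    cases this
  have hr := p.hrule (.r1 none)
  simp only [lhs, rhs, gb] at hr
  have ht : tau p.toPar ((none, p.cs .o, p.cc .o, p.cs .o) : St p.toPar)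
      (none, p.cs .o, p.cc .o, p.cs .o) (none, p.cs .o, p.cc .o, p.cs .o) =
      (none, p.cs .o, p.cc .o, p.cs .o) := by
    simp only [tau, ite_self, hr]
  have hT : T p.toPar (fun _ => (none, p.cs .o, p.cc .o, p.cs .o)) =
      fun _ => (none, p.cs .o, p.cc .o, p.cs .o) := by
    funext i
    exact ht
  have hx : xe p.toPar ((none, p.cs .o, p.cc .o, p.cs .o) : St p.toPar) =
      (none, p.cs .o, p.cc .o, p.cs .o) := by
    simp only [xe, xst, est, hc, if_false]
  funext i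
  simp only [F, hT, hx]

end H82R2.UPG
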