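import Pool.Agent.H82R2.UPG.StG
import Pool.Agent.H82R2.UPG.Region

/-! The main theorem for the automaton `F`. -/

namespace H82R2.UPG
open Classical
variable {p : WPar}

/-- the main theorem for the automaton `F` -/
theorem main (x : ℤ → St p.toPar) (hx : SC 0 30 (5^29) 0 x) (w : List (St p.toPar)) (i : ℤ) :
    ∃ n, ∀ j (hj : j < w.length), (F p.toPar)^[n] x (i + j) = w[j] := by
  obtain ⟨k, hk⟩ : ∃ k : ℕ, k = i.natAbs + w.length + 1 := ⟨_, rfl⟩
  obtain ⟨ys, hlen, hys⟩ := region p.toPar (4*k)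
    (fun m => w.getD (2*(k:ℤ) - 1 - m - i).toNat (none, p.cs .o, p.cc .o, p.cs .o))
  have hn := p.hn
  rw [hn] at hlen
  have hsur : ∀ l : ℕ, ∃ d, dec d = ys.getD l none := fun l => dec_surjective _
  choose a ha using hsur
  obtain ⟨v, hv1, hv2, hva⟩ := exists_dg (30 + 298 * k) a
  obtain ⟨t, ht⟩ := stages x hx k v hv1 (by omega)
  have hlen' : ys.length ≤ 30 + 298 * k := by omega
  have h1 := fE ys.length (by omega) (by omega) hv2 ht
  have h2 : (List.range ys.length).map (fun i => dec (dg v i)) = ys := by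
    apply List.ext_getElem
    · simp
    · intro l h3 h4
      rw [List.getElem_map, List.getElem_range, hva l (by omega), ha l,
        List.getD_eq_getElem _ _ h4]
  rw [h2] at h1
  refine ⟨ys.length + t, fun j hj => ?_⟩
  rw [Function.iterate_add_apply]
  have hm : (2 * (k:ℤ) - 1 - i - j).toNat < 4 * k := by omega
  have hm' : (((2 * (k:ℤ) - 1 - i - j).toNat : ℕ) : ℤ) = 2 * (k:ℤ) - 1 - i - j := by omega
  have h3 := hys (left (2 * (k:ℤ)) ((F p.toPar)^[t] x)) _ hm
  rw [← h1] at h3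
  have h4 : i + (j:ℤ) = 2 * (k:ℤ) - 1 - (((2 * (k:ℤ) - 1 - i - j).toNat : ℕ) : ℤ) := by omega
  rw [h4]
  refine Eq.trans h3 ?_
  have h5 : (2 * (k:ℤ) - 1 - (((2 * (k:ℤ) - 1 - i - j).toNat : ℕ) : ℤ) - i).toNat = j := by omega
  simp only [h5]
  exact List.getD_eq_getElem _ _ hj

end H82R2.UPG
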