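import Pool.Agent.H82R2.UPG.Tab

namespace H82R2.UPG
open Classical

/-- decoding of garbage symbols -/
def bg : Sym → Option (Fin 5)
  | .D d => some d
  | _ => none

theorem bg_gb (x : Option (Fin 5)) : bg (gb x) = x := by
  rcases x with _ | d <;> rfl

theorem gb_inj {x y : Option (Fin 5)} : gb x = gb y ↔ x = y :=
  ⟨fun h => by rw [← bg_gb x, h, bg_gb], fun h => by rw [h]⟩

theorem gb_I0 (x : Option (Fin 5)) : gb x ≠ .I0 := by rcases x with _ | d <;> simp [gb]
theorem gb_I1 (x : Option (Fin 5)) : gb x ≠ .I1 := by rcases x with _ | d <;> simp [gb]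
theorem gb_J (x : Option (Fin 5)) : gb x ≠ .J := by rcases x with _ | d <;> simp [gb]
theorem gb_K (x : Option (Fin 5)) : gb x ≠ .K := by rcases x with _ | d <;> simp [gb]
theorem gb_N2 (x : Option (Fin 5)) : gb x ≠ .N2 := by rcases x with _ | d <;> simp [gb]
theorem gb_N3 (x : Option (Fin 5)) : gb x ≠ .N3 := by rcases x with _ | d <;> simp [gb]
theorem gb_N4 (x : Option (Fin 5)) : gb x ≠ .N4 := by rcases x with _ | d <;> simp [gb]
theorem gb_N (x : Option (Fin 5)) (j : Fin 300) : gb x ≠ .N j := by rcases x with _ | d <;> simp [gb]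

theorem lhs_injective : Function.Injective lhs := by
  intro r s h
  cases r <;> cases s <;>
    simp only [lhs, Prod.mk.injEq, Sym.N.injEq, Cst.m.injEq, Cst.E.injEq, reduceCtorEq, gb_inj,
      gb_I0, gb_I1, gb_J, gb_K, gb_N2, gb_N3, gb_N4, gb_N, (gb_I0 _).symm, (gb_I1 _).symm,
      (gb_J _).symm, (gb_K _).symm, (gb_N2 _).symm, (gb_N3 _).symm, (gb_N4 _).symm,
      (gb_N _ _).symm, and_false, false_and, and_true, true_and] at h <;>
    first
      | rfl
      | (subst h; rfl)
      | (obtain ⟨h1, h2⟩ := h; subst h1; subst h2; rfl)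
      | (obtain ⟨h1, h2, h3⟩ := h; subst h1; subst h2; subst h3; rfl)

theorem rhs_injective : Function.Injective rhs := by
  have hK : ∀ j : Fin 300, (if j = 299 then Sym.K else Sym.J) ≠ .o := by
    intro j; split_ifs <;> simp
  have hD : ∀ (j : Fin 300) (d : Fin 5), (if j = 299 then Sym.K else Sym.J) ≠ .D d := by
    intro j d; split_ifs <;> simp
  have hI : ∀ d : Fin 5, (if d = 4 then Sym.I1 else Sym.I0) ≠ .o := by
    intro j; split_ifs <;> simp
  have hI' : ∀ (d d' : Fin 5), (if d = 4 then Sym.I1 else Sym.I0) ≠ .D d' := by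
    intro j d; split_ifs <;> simp
  have hI2 : ∀ (d : Fin 5), (if d = 4 then Sym.I1 else Sym.I0) ≠ .N2 := by
    intro j; split_ifs <;> simp
  have hI3 : ∀ (d : Fin 5), (if d = 4 then Sym.I1 else Sym.I0) ≠ .N3 := by
    intro j; split_ifs <;> simp
  have hI4 : ∀ (d : Fin 5), (if d = 4 then Sym.I1 else Sym.I0) ≠ .N4 := by
    intro j; split_ifs <;> simp
  have hIg : ∀ (d : Fin 5) (x : Option (Fin 5)), (if d = 4 then Sym.I1 else Sym.I0) ≠ gb x := by
    intro d x; split_ifs
    · exact (gb_I1 x).symm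
    · exact (gb_I0 x).symm
  have hne : ∀ d : Fin 5, d ≠ d + 1 := by decide
  intro r s h
  cases r <;> cases s <;>
    simp only [rhs, Prod.mk.injEq, Sym.N.injEq, Sym.D.injEq, Cst.m.injEq, Cst.E.injEq,
      reduceCtorEq, gb_inj, hK, hD, hI, hI', hI2, hI3, hI4, hIg, (hIg _ _).symm, (hK _).symm,
      (hD _ _).symm, (hI _).symm,
      gb_I0, gb_I1, gb_J, gb_K, gb_N2, gb_N3, gb_N4, gb_N, (gb_I0 _).symm, (gb_I1 _).symm,
      (gb_J _).symm, (gb_K _).symm, (gb_N2 _).symm, (gb_N3 _).symm, (gb_N4 _).symm,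
      (gb_N _ _).symm, and_false, false_and, and_true, true_and, add_left_inj] at h <;>
    first
      | rfl
      | (subst h; rfl)
      | (obtain ⟨h1, h2⟩ := h; subst h1; subst h2; rfl)
      | (obtain ⟨h1, h2, h3⟩ := h; subst h1; subst h2; subst h3; rfl)
      | (exfalso; revert h; decide)
      | (exfalso; obtain ⟨h1, h2⟩ := h; subst h1; revert h2; decide)
      | (exfalso; obtain ⟨h1, h2, h3⟩ := h; subst h1; exact absurd h2 (hne _))
      | (exfalso; obtain ⟨h1, h2, h3⟩ := h; subst h1; exact absurd h2.symm (hne _))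
      | (obtain ⟨h1, h2, h3⟩ := h; subst h1; rfl)
      | (obtain ⟨h1, h2⟩ := h; subst h1; rfl)
      | (obtain ⟨h1, h2⟩ := h; subst h2; rfl)

/-- two injective families in a finite type are related by a permutation -/
theorem exists_perm {R Q : Type} [Finite Q] (f g : R → Q) (hf : Function.Injective f)
    (hg : Function.Injective g) : ∃ π : Equiv.Perm Q, ∀ r, π (f r) = g r := by
  have := Fintype.ofFinite Q
  let e : {x // x ∈ Set.range f} ≃ {x // x ∈ Set.range g} :=
    (Equiv.ofInjective f hf).symm.trans (Equiv.ofInjective g hg)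
  refine ⟨e.extendSubtype, fun r => ?_⟩
  rw [Equiv.extendSubtype_apply_of_mem e _ ⟨r, rfl⟩]
  have h1 : (⟨f r, ⟨r, rfl⟩⟩ : {x // x ∈ Set.range f}) = Equiv.ofInjective f hf r := rfl
  simp only [e, Equiv.trans_apply]
  rw [h1, Equiv.symm_apply_apply]
  rfl

end H82R2.UPG
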