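import Pool.Agent.H82R2.UPG.Tab

/-!
The queue: `27` bits.
-/

namespace H82R2.UPG
open Classical

/-- words of `27` bits -/
abbrev QB := Fin 27 → Bool

/-- append a bit at the end -/
def qsn (b : Bool) (g : Fin 26 → Bool) : QB := Fin.snoc (α := fun _ => Bool) g b

/-- put a bit in front -/
def qcn (b : Bool) (g : Fin 26 → Bool) : QB := Fin.cons (α := fun _ => Bool) b g

theorem qsn_last (b : Bool) (g : Fin 26 → Bool) : qsn b g (Fin.last 26) = b :=
  Fin.snoc_last (α := fun _ => Bool) b g

theorem qsn_cast (b : Bool) (g : Fin 26 → Bool) (j : Fin 26) : qsn b g j.castSucc = g j :=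
  Fin.snoc_castSucc (α := fun _ => Bool) b g j

theorem qcn_zero (b : Bool) (g : Fin 26 → Bool) : qcn b g 0 = b := rfl

theorem qcn_succ (b : Bool) (g : Fin 26 → Bool) (j : Fin 26) : qcn b g j.succ = g j := rfl

/-- the shift register -/
def qsh : Equiv.Perm (Bool × QB) where
  toFun p := (p.2 (Fin.last 26), qcn p.1 (fun i : Fin 26 => p.2 i.castSucc))
  invFun p := (p.2 0, qsn p.1 (fun i : Fin 26 => p.2 i.succ))
  left_inv := by
    rintro ⟨b, f⟩
    dsimp only
    refine Prod.ext rfl ?_
    dsimp only
    funext i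
    refine Fin.lastCases ?_ (fun j => ?_) i
    · rw [qsn_last]
    · rw [qsn_cast, qcn_succ]
  right_inv := by
    rintro ⟨b, f⟩
    dsimp only
    rw [qsn_last]
    refine Prod.ext rfl ?_
    dsimp only
    funext i
    refine Fin.cases ?_ (fun j => ?_) i
    · rfl
    · rw [qcn_succ, qsn_cast]

theorem qsh_symm_apply (b : Bool) (f : QB) :
    qsh.symm (b, f) = (f 0, qsn b (fun i : Fin 26 => f i.succ)) := rfl

theorem qsh_zero : qsh (false, fun _ => false) = (false, fun _ => false) := by
  refine Prod.ext rfl ?_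
  funext i
  refine Fin.cases ?_ (fun j => ?_) i
  · rfl
  · rfl

theorem qsh_iter (t : ℕ) (f : QB) (i : Fin 27) (hi : i.val < t) :
    ((fun q => (qsh (false, q)).2)^[t] f) i = false := by
  induction t generalizing i with
  | zero => omega
  | succ t ih =>
    rw [Function.iterate_succ_apply']
    revert hi
    refine Fin.cases (fun _ => rfl) (fun j hj => ?_) i
    refine ih j.castSucc ?_
    simp only [Fin.val_succ, Fin.val_castSucc] at hj ⊢
    omega

theorem qsh_symm_iter (t : ℕ) (f : QB) (i : Fin 27) (hi : 27 ≤ i.val + t) :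
    ((fun q => (qsh.symm (false, q)).2)^[t] f) i = false := by
  induction t generalizing i with
  | zero => have := i.isLt; omega
  | succ t ih =>
    rw [Function.iterate_succ_apply']
    revert hi
    rw [qsh_symm_apply]
    dsimp only
    refine Fin.lastCases (fun _ => ?_) (fun j hj => ?_) i
    · rw [qsn_last]
    · rw [qsn_cast]
      refine ih j.succ ?_
      simp only [Fin.val_succ, Fin.val_castSucc] at hj ⊢
      omega

theorem exists_queueEquiv : ∃ e : (Fin 512 × Fin 512 × Fin 512) ≃ QB, e 0 = fun _ => false := by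
  have hc : Fintype.card (Fin 512 × Fin 512 × Fin 512) = Fintype.card QB := by
    simp only [Fintype.card_prod, Fintype.card_fin, Fintype.card_fun, Fintype.card_bool]
    norm_num
  have e := Fintype.equivOfCardEq hc
  exact ⟨e.trans (Equiv.swap (e 0) (fun _ => false)), by simp⟩

/-- the queue: `27` bits -/
theorem exists_queue : ∃ (xi : Equiv.Perm (Bool × (Fin 512 × Fin 512 × Fin 512))),
    xi (false, 0) = (false, 0) ∧
    (∀ q, (fun q => (xi (false, q)).2)^[27] q = 0) ∧
    (∀ q, (fun q => (xi.symm (false, q)).2)^[27] q = 0) := by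
  obtain ⟨e, he⟩ := exists_queueEquiv
  let xi : Equiv.Perm (Bool × (Fin 512 × Fin 512 × Fin 512)) :=
    ((Equiv.refl Bool).prodCongr e).trans (qsh.trans ((Equiv.refl Bool).prodCongr e.symm))
  have hx : ∀ p, xi p = ((qsh (p.1, e p.2)).1, e.symm (qsh (p.1, e p.2)).2) := fun _ => rfl
  have hy : ∀ p, xi.symm p = ((qsh.symm (p.1, e p.2)).1, e.symm (qsh.symm (p.1, e p.2)).2) :=
    fun _ => rfl
  refine ⟨xi, ?_, fun q => ?_, fun q => ?_⟩
  · rw [hx]
    simp only [he, qsh_zero]
    rw [← he, Equiv.symm_apply_apply]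
  · have hs : Function.Semiconj e (fun q => (xi (false, q)).2) (fun q => (qsh (false, q)).2) := by
      intro q
      simp only [hx, Equiv.apply_symm_apply]
    apply e.injective
    rw [(hs.iterate_right 27).eq, he]
    funext i
    exact qsh_iter 27 _ i i.isLt
  · have hs : Function.Semiconj e (fun q => (xi.symm (false, q)).2)
        (fun q => (qsh.symm (false, q)).2) := by
      intro q
      simp only [hy, Equiv.apply_symm_apply]
    apply e.injective
    rw [(hs.iterate_right 27).eq, he]
    funext i
    exact qsh_symm_iter 27 _ i (by omega)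

end H82R2.UPG
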