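import Pool.Agent.H82R2.UPG.Defs

namespace H82R2.UPG
open Classical
variable (p : Par)

/-- forward cleaning -/
theorem run_clean (k : ℕ) (s : ℕ → St p) :
    ∀ m < k, run p s (List.replicate ((p.n + 1) * k) chi) m = (chi, p.q0) := sorry

/-- backward control -/
theorem control (mu : ℕ) (tgt : ℕ → St p) : ∃ ys : List Tok, ys.length = (p.n + 1) * mu ∧
    ∀ s : ℕ → St p, (∀ m ≤ mu, s m = (chi, p.q0)) → ∀ m < mu, run p s ys m = tgt m := sorry

/-- the region theorem -/
theorem region (mu : ℕ) (tgt : ℕ → St p) : ∃ ys : List Tok,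
    ys.length = (p.n + 1) * (2 * mu + 1) ∧ ∀ s : ℕ → St p, ∀ m < mu, run p s ys m = tgt m := by
  obtain ⟨ys, h1, h2⟩ := control p mu tgt
  refine ⟨List.replicate ((p.n + 1) * (mu + 1)) chi ++ ys, ?_, ?_⟩
  · simp [h1]; ring
  · intro s m hm
    unfold run
    rw [List.foldl_append]
    exact h2 _ (fun k hk => run_clean p (mu + 1) s k (by omega)) m hm

end H82R2.UPG
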