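import Pool.Agent.H82R2.UPG.StDef

/-! The move of the port. -/

namespace H82R2.UPG
open Classical
variable {p : WPar}

theorem stD_ru (r : Rule) : Ru p (lhs r) (rhs r) := p.hrule r

theorem stD_ne (M v : ℕ) (j : Fin 300) (i : ℕ) : cen M v j i ≠ Cst.e := by
  unfold cen
  split_ifs <;> exact Cst.noConfusion

/-- garbage passes every cell -/
theorem stD_pass (M v : ℕ) (j : Fin 300) (i : ℕ) (x : Option (Fin 5)) :
    Ru p (gb x, cen M v j i, .o) (.o, cen M v j i, gb x) := by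
  unfold cen
  split_ifs
  · exact stD_ru (Rule.r3 x (dg v (i - 1)) none)
  · exact stD_ru (Rule.r5a x j)
  · exact stD_ru (Rule.r1 x)

theorem stD_dg (M i : ℕ) (hi : i < M) : dg (5 ^ M) i = 0 := by
  unfold dg
  rw [Nat.pow_div hi.le (by norm_num)]
  obtain ⟨k, hk⟩ : ∃ k, M - i = k + 1 := ⟨M - i - 1, by omega⟩
  rw [hk, pow_succ]
  apply Fin.ext
  show (5 ^ k * 5) % 5 = 0
  exact Nat.mul_mod_left _ _

theorem stD_cen {M : ℕ} (hM : 4 ≤ M) (i : ℕ) :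
    cen M (5 ^ (M - 1)) 0 (i + 3) = cen (M - 2) (5 ^ (M - 3)) 0 (i + 1) := by
  obtain ⟨K, rfl⟩ : ∃ K, M = K + 3 := ⟨M - 3, by omega⟩
  have e1 : K + 3 - 1 = K + 2 := by omega
  have e2 : K + 3 - 2 = K + 1 := by omega
  have e3 : K + 3 - 3 = K := by omega
  rw [e1, e2, e3]
  have hd : dg (5 ^ (K + 2)) (i + 3 - 1) = dg (5 ^ K) (i + 1 - 1) := by
    have e4 : i + 3 - 1 = i + 2 := by omega
    have e5 : i + 1 - 1 = i := by omega
    rw [e4, e5]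
    unfold dg
    rw [pow_add 5 K 2, pow_add 5 i 2, Nat.mul_div_mul_right _ _ (by norm_num)]
  have c1 : (i + 3 ≤ K + 3) = (i + 1 ≤ K + 1) := propext (by omega)
  have c2 : (i + 3 = K + 3 + 1) = (i + 1 = K + 1 + 1) := propext (by omega)
  unfold cen
  rw [hd]
  simp only [c1, c2]

theorem stD_cen1 {M : ℕ} (hM : 4 ≤ M) : cen M (5 ^ (M - 1)) 0 1 = .m 0 := by
  unfold cen
  rw [if_pos (by omega), stD_dg _ _ (by omega)]

theorem stD_cen2 {M : ℕ} (hM : 4 ≤ M) : cen M (5 ^ (M - 1)) 0 2 = .m 0 := by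
  unfold cen
  rw [if_pos (by omega), stD_dg _ _ (by omega)]

/-- the two steps of the move of the port -/
theorem stD {M : ℕ} {h : ℕ → Q p.toPar} (hM : 4 ≤ M) (h0 : h 0 = code p (.o, .o, .N2))
    (hh : ∀ i, 1 ≤ i → ∃ g, h i = code p (.o, cen M (5^(M-1)) 0 i, gb g)) :
    (∀ i, (V p h (i+1)).2.1 ≠ p.e) ∧
    Start .N4 (cen (M-2) (5^(M-3)) 0) (fun i => V p (fun i => V p h (i+1)) (i+1)) := by
  -- the first step, cell 1
  have a1 : V p h 1 = code p (.o, .o, .N3) := by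
    obtain ⟨g1, hg1⟩ := hh 1 le_rfl
    obtain ⟨g2, hg2⟩ := hh 2 (by omega)
    show p.pi ((h 0).2.2, (h 1).2.1, (h 2).1) = _
    rw [h0, hg1, hg2, stD_cen1 hM]
    exact stD_ru Rule.r7a
  -- the first step, other cells
  have a2 : ∀ i, ∃ g, V p h (i + 2) = code p (.o, cen M (5^(M-1)) 0 (i + 2), gb g) := by
    intro i
    obtain ⟨g1, hg1⟩ := hh (i + 1) (by omega)
    obtain ⟨g2, hg2⟩ := hh (i + 2) (by omega)
    obtain ⟨g3, hg3⟩ := hh (i + 3) (by omega)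
    refine ⟨g1, ?_⟩
    show p.pi ((h (i + 1)).2.2, (h (i + 2)).2.1, (h (i + 3)).1) = _
    rw [hg1, hg2, hg3]
    exact stD_pass M _ 0 (i + 2) g1
  refine ⟨?_, ?_, ?_⟩
  · intro i
    rcases i with _ | i
    · rw [show (0 : ℕ) + 1 = 1 from rfl, a1]
      intro h1
      have h2 := (p.hcc Cst.o).mp h1
      exact Cst.noConfusion h2
    · obtain ⟨g, hg⟩ := a2 i
      rw [show i + 1 + 1 = i + 2 from rfl, hg]
      intro h1
      exact stD_ne _ _ _ _ ((p.hcc _).mp h1)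
  · -- second step, new port
    obtain ⟨g2, hg2⟩ := a2 0
    obtain ⟨g3, hg3⟩ := a2 1
    show p.pi ((V p h 1).2.2, (V p h (0 + 2)).2.1, (V p h (1 + 2)).1) = _
    rw [a1, hg2, hg3, show (0 : ℕ) + 2 = 2 from rfl, stD_cen2 hM]
    exact stD_ru Rule.r7b
  · intro i hi
    obtain ⟨k, rfl⟩ : ∃ k, i = k + 1 := ⟨i - 1, by omega⟩
    obtain ⟨g2, hg2⟩ := a2 k
    obtain ⟨g3, hg3⟩ := a2 (k + 1)
    obtain ⟨g4, hg4⟩ := a2 (k + 2)
    refine ⟨g2, ?_⟩
    show p.pi ((V p h (k + 2)).2.2, (V p h (k + 1 + 2)).2.1, (V p h (k + 2 + 2)).1) = _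
    rw [hg2, hg3, hg4, ← stD_cen hM k]
    exact stD_pass M _ 0 (k + 3) g2

end H82R2.UPG
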