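import Pool.Agent.H82R2.UPG.Wr

/-! Stage definitions. -/

namespace H82R2.UPG
open Classical
variable {p : WPar}

/-- digit `i` of `v` in base 5 -/
def dg (v i : ℕ) : Fin 5 := Fin.ofNat 5 (v / 5 ^ i)

/-- the centres of the writer: `M` digits of `v`, then the end marker -/
def cen (M v : ℕ) (j : Fin 300) (i : ℕ) : Cst :=
  if i ≤ M then .m (dg v (i - 1)) else if i = M + 1 then .E j else .o

/-- the cells to the left of `P` -/
def left (P : ℤ) (x : ℤ → St p.toPar) : ℕ → St p.toPar := fun m => x (P - 1 - m)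

/-- the cells from `P` on carry the writer `h` -/
def At (P : ℤ) (h : ℕ → Q p.toPar) (x : ℤ → St p.toPar) : Prop := ∀ i : ℕ, x (P + i) = (none, h i)

/-- the start configurations of a sweep -/
def SC (P : ℤ) (M v : ℕ) (j : Fin 300) (x : ℤ → St p.toPar) : Prop :=
  ∃ h, At P h x ∧ Start .I1 (cen M v j) h

end H82R2.UPG
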