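import Pool.Agent.H82R2.UPG.Wr

namespace H82R2.UPG
open Classical
variable {p : WPar}

/-- left-moving symbols at time `t` -/
def sweepLv (L : ℕ) (u : ℕ → Sym) (t j : ℕ) : Sym :=
  if (t + j) % 2 = 0 ∧ j ≤ t ∧ (t + j) / 2 ≤ L then u ((t + j) / 2) else Sym.o

/-- centres at time `t` -/
def sweepCv (L : ℕ) (c c' : ℕ → Cst) (t j : ℕ) : Cst := if j ≤ t ∧ j ≤ L then c' j else c j

/-- invariant for the cells -/
def SweepC (p : WPar) (L : ℕ) (sg : ℕ → Sym) (c c' : ℕ → Cst) (u : ℕ → Sym) (t : ℕ)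
    (h : ℕ → Q p.toPar) : Prop :=
  ∀ j, 1 ≤ j → ∃ x, h j = code p (sweepLv L u t j, sweepCv L c c' t j, x) ∧
    ((j = t ∧ t < L) → x = sg t) ∧ (¬ (j = t ∧ t < L) → ∃ g, x = gb g)

/-- invariant for the port -/
def Sweep0 (p : WPar) (L : ℕ) (sg : ℕ → Sym) (u : ℕ → Sym) (t : ℕ) (h : ℕ → Q p.toPar) : Prop :=
  h 0 = code p (.o, .e, if t = 0 then sg 0 else sweepLv L u (t - 1) 1)

section
variable {L : ℕ} {sg : ℕ → Sym} {c c' : ℕ → Cst} {u : ℕ → Sym}

theorem sweep_lv_garb (S : SweepData p L sg c c' u) (t : ℕ) (ht : t + 1 < 2 * L) :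
    ∃ g, sweepLv L u t 1 = gb g := by
  unfold sweepLv
  by_cases h : (t + 1) % 2 = 0 ∧ 1 ≤ t ∧ (t + 1) / 2 ≤ L
  · rw [if_pos h]
    exact S.pt _ (by omega) (by omega)
  · rw [if_neg h]
    exact ⟨none, rfl⟩

theorem sweep_left (S : SweepData p L sg c c' u) {t : ℕ} {h : ℕ → Q p.toPar} (ht : t < 2 * L)
    (h0 : Sweep0 p L sg u t h) (hC : SweepC p L sg c c' u t h) (i : ℕ) :
    ∃ y, (h i).2.2 = p.cs y ∧ ((i = t ∧ t < L) → y = sg t) ∧
      (¬ (i = t ∧ t < L) → ∃ g, y = gb g) := by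
  have hL := S.hL
  rcases Nat.eq_zero_or_pos i with rfl | hi
  · refine ⟨if t = 0 then sg 0 else sweepLv L u (t - 1) 1, ?_, ?_, ?_⟩
    · rw [h0]; rfl
    · rintro ⟨h1, -⟩
      rw [if_pos h1.symm, ← h1]
    · intro h1
      have ht0 : t ≠ 0 := fun h2 => h1 ⟨h2.symm, by omega⟩
      rw [if_neg ht0]
      exact sweep_lv_garb S (t - 1) (by omega)
  · obtain ⟨x, hx, h1, h2⟩ := hC i hi
    exact ⟨x, by rw [hx]; rfl, h1, h2⟩

theorem sweep_V {t : ℕ} {h : ℕ → Q p.toPar}
    (hC : SweepC p L sg c c' u t h) (i : ℕ) (y : Sym) (hy : (h i).2.2 = p.cs y) :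
    V p h (i + 1) = p.pi (code p (y, sweepCv L c c' t (i + 1), sweepLv L u t (i + 2))) := by
  obtain ⟨x1, hx1, -, -⟩ := hC (i + 1) (by omega)
  obtain ⟨x2, hx2, -, -⟩ := hC (i + 2) (by omega)
  show p.pi ((h i).2.2, (h (i+1)).2.1, (h (i+2)).1) = _
  rw [hy, hx1, hx2]
  rfl

theorem sweep_step_C (S : SweepData p L sg c c' u) {t : ℕ} {h : ℕ → Q p.toPar} (ht : t < 2 * L)
    (h0 : Sweep0 p L sg u t h) (hC : SweepC p L sg c c' u t h) :
    SweepC p L sg c c' u (t + 1) (V p h) := by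
  intro j hj
  obtain ⟨i, rfl⟩ : ∃ i, j = i + 1 := ⟨j - 1, by omega⟩
  obtain ⟨y, hy, hy1, hy2⟩ := sweep_left S ht h0 hC i
  have hV := sweep_V hC i y hy
  by_cases hi : i = t ∧ t < L
  · -- the signal
    obtain ⟨rfl, hL⟩ := hi
    have e1 : sweepCv L c c' i (i + 1) = c (i + 1) := by
      unfold sweepCv; rw [if_neg (by omega)]
    have e2 : sweepLv L u i (i + 2) = Sym.o := by
      unfold sweepLv; rw [if_neg (by omega)]
    have e3 : sweepCv L c c' (i + 1) (i + 1) = c' (i + 1) := by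
      unfold sweepCv; rw [if_pos (by omega)]
    have e4 : sweepLv L u (i + 1) (i + 1) = u (i + 1) := by
      unfold sweepLv
      rw [if_pos (by omega), show (i + 1 + (i + 1)) / 2 = i + 1 by omega]
    rw [hy1 ⟨rfl, hL⟩, e1, e2] at hV
    refine ⟨sg (i + 1), ?_, fun _ => rfl, ?_⟩
    · rw [hV, e3, e4]
      exact S.act i hL
    · intro h1
      have : i + 1 = L := by
        by_contra h2
        exact h1 ⟨rfl, by omega⟩
      rw [this]
      exact S.hs
  · obtain ⟨g, rfl⟩ := hy2 hi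
    have hg : ¬ (i + 1 = t + 1 ∧ t + 1 < L) := by omega
    by_cases hc : i + 1 ≤ t ∧ i + 1 ≤ L
    · -- cells already visited
      have e1 : sweepCv L c c' t (i + 1) = c' (i + 1) := by
        unfold sweepCv; rw [if_pos hc]
      have e3 : sweepCv L c c' (t + 1) (i + 1) = c' (i + 1) := by
        unfold sweepCv; rw [if_pos (by omega)]
      have e4 : sweepLv L u (t + 1) (i + 1) = sweepLv L u t (i + 2) := by
        unfold sweepLv
        have e5 : t + 1 + (i + 1) = t + (i + 2) := by omega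
        rw [e5]
        by_cases h2 : (t + (i + 2)) % 2 = 0 ∧ i + 2 ≤ t ∧ (t + (i + 2)) / 2 ≤ L
        · rw [if_pos h2, if_pos (by omega)]
        · rw [if_neg h2, if_neg (by omega)]
      refine ⟨gb g, ?_, fun h1 => absurd h1 hg, fun _ => ⟨g, rfl⟩⟩
      rw [hV, e1, e3, e4]
      by_cases h2 : (t + (i + 2)) % 2 = 0 ∧ i + 2 ≤ t ∧ (t + (i + 2)) / 2 ≤ L
      · have e6 : sweepLv L u t (i + 2) = u ((t + (i + 2)) / 2) := by
          unfold sweepLv; rw [if_pos h2]
        rw [e6]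
        exact S.tr2 (i + 1) _ (by omega) (by omega) (by omega) g
      · have e6 : sweepLv L u t (i + 2) = Sym.o := by
          unfold sweepLv; rw [if_neg h2]
        rw [e6]
        exact S.tr1 (i + 1) (by omega) hc.2 g
    · -- cells not visited yet
      have e1 : sweepCv L c c' t (i + 1) = c (i + 1) := by
        unfold sweepCv; rw [if_neg hc]
      have e2 : sweepLv L u t (i + 2) = Sym.o := by
        unfold sweepLv; rw [if_neg (by omega)]
      have e3 : sweepCv L c c' (t + 1) (i + 1) = c (i + 1) := by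
        unfold sweepCv; rw [if_neg (by omega)]
      have e4 : sweepLv L u (t + 1) (i + 1) = Sym.o := by
        unfold sweepLv; rw [if_neg (by omega)]
      refine ⟨gb g, ?_, fun h1 => absurd h1 hg, fun _ => ⟨g, rfl⟩⟩
      rw [hV, e1, e2, e3, e4]
      exact S.tr4 (i + 1) (by omega) g

theorem sweep_V0 {t : ℕ} {h : ℕ → Q p.toPar}
    (h0 : Sweep0 p L sg u t h) (hC : SweepC p L sg c c' u t h) :
    V p h 0 = p.pi (code p (.o, .e, sweepLv L u t 1)) := by
  obtain ⟨x1, hx1, -, -⟩ := hC 1 le_rfl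
  show p.pi ((h 0).1, (h 0).2.1, (h 1).1) = _
  rw [h0, hx1]
  rfl

theorem sweep_step_0 (S : SweepData p L sg c c' u) {t : ℕ} {h : ℕ → Q p.toPar}
    (ht : t + 1 < 2 * L)
    (h0 : Sweep0 p L sg u t h) (hC : SweepC p L sg c c' u t h) :
    Sweep0 p L sg u (t + 1) (V p h) := by
  obtain ⟨g, hg⟩ := sweep_lv_garb S t ht
  unfold Sweep0
  rw [sweep_V0 h0 hC, if_neg (by omega), Nat.add_sub_cancel, hg]
  exact S.pt' g

theorem sweep_all (S : SweepData p L sg c c' u) {h : ℕ → Q p.toPar} (hh : Start (sg 0) c h) :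
    ∀ t < 2 * L, Sweep0 p L sg u t ((V p)^[t] h) ∧ SweepC p L sg c c' u t ((V p)^[t] h) := by
  intro t
  induction t with
  | zero =>
    intro _
    refine ⟨?_, ?_⟩
    · show h 0 = _
      rw [if_pos rfl]
      exact hh.1
    · intro j hj
      obtain ⟨g, hg⟩ := hh.2 j hj
      refine ⟨gb g, ?_, fun h1 => ?_, fun _ => ⟨g, rfl⟩⟩
      · have e1 : sweepCv L c c' 0 j = c j := by
          unfold sweepCv; rw [if_neg (by omega)]
        have e2 : sweepLv L u 0 j = Sym.o := by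
          unfold sweepLv; rw [if_neg (by omega)]
        rw [e1, e2]
        exact hg
      · omega
  | succ t ih =>
    intro ht
    obtain ⟨h0, hC⟩ := ih (by omega)
    rw [Function.iterate_succ_apply']
    exact ⟨sweep_step_0 S ht h0 hC, sweep_step_C S (by omega) h0 hC⟩

end

theorem sweep {L : ℕ} {sg : ℕ → Sym} {c c' : ℕ → Cst} {u : ℕ → Sym}
    (S : SweepData p L sg c c' u) {h : ℕ → Q p.toPar} (hh : Start (sg 0) c h) :
    (∀ t < 2 * L, WF p ((V p)^[t] h)) ∧
    (∀ i, 1 ≤ i → i < L → (V p)^[2*i] h 0 = code p (.o, .e, u i)) ∧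
    (V p)^[2*L] h 0 = p.pi (code p (.o, .e, u L)) ∧
    (∀ j, 1 ≤ j → ∃ g, (V p)^[2*L] h j = code p (.o, if j ≤ L then c' j else c j, gb g)) := by
  have hL := S.hL
  have hA := sweep_all S hh
  have e2L : 2 * L = (2 * L - 1) + 1 := by omega
  refine ⟨?_, ?_, ?_, ?_⟩
  · intro t ht
    obtain ⟨h0, hC⟩ := hA t ht
    refine ⟨?_, ?_⟩
    · rw [h0]
      exact (p.hcc Cst.e).mpr rfl
    · intro i
      obtain ⟨x, hx, -, -⟩ := hC (i + 1) (by omega)
      rw [hx]
      intro h1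
      have h2 := (p.hcc _).mp h1
      have h3 := S.ne (i + 1) (by omega)
      unfold sweepCv at h2
      split_ifs at h2
      · exact h3.2 h2
      · exact h3.1 h2
  · intro i hi hiL
    have h0 := (hA (2 * i) (by omega)).1
    unfold Sweep0 at h0
    rw [h0, if_neg (by omega)]
    unfold sweepLv
    rw [if_pos (by omega), show (2 * i - 1 + 1) / 2 = i by omega]
  · obtain ⟨h0, hC⟩ := hA (2 * L - 1) (by omega)
    rw [e2L, Function.iterate_succ_apply', sweep_V0 h0 hC]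
    unfold sweepLv
    rw [if_pos (by omega), show (2 * L - 1 + 1) / 2 = L by omega]
  · intro j hj
    obtain ⟨h0, hC⟩ := hA (2 * L - 1) (by omega)
    obtain ⟨x, hx, -, hg⟩ := sweep_step_C S (by omega) h0 hC j hj
    obtain ⟨g, rfl⟩ := hg (by omega)
    refine ⟨g, ?_⟩
    rw [e2L, Function.iterate_succ_apply', hx]
    have e1 : sweepLv L u (2 * L - 1 + 1) j = Sym.o := by
      unfold sweepLv; rw [if_neg (by omega)]
    have e2 : sweepCv L c c' (2 * L - 1 + 1) j = if j ≤ L then c' j else c j := by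
      unfold sweepCv
      by_cases h1 : j ≤ L
      · rw [if_pos h1, if_pos (by omega)]
      · rw [if_neg h1, if_neg (by omega)]
    rw [e1, e2]

end H82R2.UPG
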