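import Pool.Agent.H82R2.UPG.StDef
import Pool.Agent.H82R2.UPG.Sweep

/-! Stage lemmas of the writer (helper204). -/

namespace H82R2.UPG
open Classical
variable {p : WPar}

theorem stv_ru (r : Rule) : Ru p (lhs r) (rhs r) := p.hrule r

theorem stv_dg_succ {v i : ℕ} (h : 5 ^ i ∣ v + 1) : dg (v + 1) i = dg v i + 1 := by
  unfold dg
  rw [Nat.succ_div, if_pos h]
  apply Fin.ext
  simp [Fin.val_add]

theorem stv_dg_same {v i : ℕ} (h : ¬ 5 ^ i ∣ v + 1) : dg (v + 1) i = dg v i := by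
  unfold dg
  rw [Nat.succ_div, if_neg h, Nat.add_zero]

theorem stv_dvd_succ {v i : ℕ} (h : 5 ^ i ∣ v + 1) : 5 ^ (i + 1) ∣ v + 1 ↔ dg v i = 4 := by
  have h1 : (v + 1) / 5 ^ i = v / 5 ^ i + 1 := by rw [Nat.succ_div, if_pos h]
  have hpos : 0 < 5 ^ i := by positivity
  have h2 : 5 ^ (i + 1) ∣ v + 1 ↔ 5 ∣ (v + 1) / 5 ^ i := by
    obtain ⟨w, hw⟩ := h
    rw [hw, Nat.mul_div_cancel_left _ hpos, pow_succ]
    exact Nat.mul_dvd_mul_iff_left hpos
  rw [h2, h1]
  unfold dg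
  rw [Fin.ext_iff]
  change 5 ∣ v / 5 ^ i + 1 ↔ (v / 5 ^ i) % 5 = 4
  omega

theorem stv_cen_le {M v i : ℕ} {j : Fin 300} (h : i + 1 ≤ M) :
    cen M v j (i + 1) = .m (dg v i) := by
  unfold cen
  rw [if_pos h, Nat.add_sub_cancel]

theorem stv_cen_E {M v : ℕ} {j : Fin 300} : cen M v j (M + 1) = .E j := by
  unfold cen
  rw [if_neg (by omega), if_pos rfl]

theorem stv_cen_o {M v i : ℕ} {j : Fin 300} (h : M + 1 < i) : cen M v j i = .o := by
  unfold cen
  rw [if_neg (by omega), if_neg (by omega)]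

theorem stv_tr {M v i : ℕ} {j : Fin 300} (x : Option (Fin 5)) :
    Ru p (gb x, cen M v j i, .o) (.o, cen M v j i, gb x) := by
  unfold cen
  split_ifs with h1 h2
  · exact stv_ru (.r3 x (dg v (i - 1)) none)
  · exact stv_ru (.r5a x j)
  · exact stv_ru (.r1 x)

theorem stv_mk {M v M' v' : ℕ} {j j' : Fin 300} {sg u : ℕ → Sym}
    (hact : ∀ i < M' + 1, Ru p (sg i, cen M v j (i+1), .o) (u (i+1), cen M' v' j' (i+1), sg (i+1)))
    (hs : ∃ g, sg (M' + 1) = gb g) (hu : ∀ k, 1 ≤ k → k ≤ M' → ∃ g, u k = gb g)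
    (hJ : u (M' + 1) = .J ∨ u (M' + 1) = .K) :
    SweepData p (M' + 1) sg (cen M v j) (cen M' v' j') u where
  hL := by omega
  act := hact
  hs := hs
  tr1 := fun i _ _ x => stv_tr x
  tr2 := by
    intro i k h1 h2 h3 x
    obtain ⟨n, rfl⟩ : ∃ n, i = n + 1 := ⟨i - 1, by omega⟩
    rw [stv_cen_le (by omega)]
    by_cases hk : k ≤ M'
    · obtain ⟨g, hg⟩ := hu k (by omega) hk
      rw [hg]
      exact stv_ru (.r3 x (dg v' n) g)
    · have hk' : k = M' + 1 := by omega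
      rw [hk']
      rcases hJ with h | h
      · rw [h]; exact stv_ru (.r3J x (dg v' n))
      · rw [h]; exact stv_ru (.r3K x (dg v' n))
  tr4 := fun i _ x => stv_tr x
  pt := fun k h1 h2 => hu k h1 (by omega)
  pt' := fun g => stv_ru (.r6a g)
  ne := by
    intro i _
    constructor <;> (unfold cen; split_ifs <;> simp)

/-- the carry step -/
theorem stv_carry {v i : ℕ} :
    Ru p (if 5 ^ i ∣ v + 1 then .I1 else .I0, .m (dg v i), .o)
      (.D (dg v i), .m (dg (v + 1) i), if 5 ^ (i + 1) ∣ v + 1 then .I1 else .I0) := by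
  by_cases h : 5 ^ i ∣ v + 1
  · rw [if_pos h, stv_dg_succ h]
    have h1 := stv_ru (p := p) (.r4b (dg v i))
    by_cases h2 : 5 ^ (i + 1) ∣ v + 1
    · have h3 := (stv_dvd_succ h).1 h2
      rw [if_pos h2]
      have h4 : rhs (.r4b (dg v i)) = (.D (dg v i), .m (dg v i + 1), .I1) := by
        change (Sym.D (dg v i), Cst.m (dg v i + 1), if dg v i = 4 then Sym.I1 else Sym.I0) = _
        rw [if_pos h3]
      rw [h4] at h1
      exact h1
    · have h3 : ¬ dg v i = 4 := fun hc => h2 ((stv_dvd_succ h).2 hc)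
      rw [if_neg h2]
      have h4 : rhs (.r4b (dg v i)) = (.D (dg v i), .m (dg v i + 1), .I0) := by
        change (Sym.D (dg v i), Cst.m (dg v i + 1), if dg v i = 4 then Sym.I1 else Sym.I0) = _
        rw [if_neg h3]
      rw [h4] at h1
      exact h1
  · have h2 : ¬ 5 ^ (i + 1) ∣ v + 1 := fun hc => h ((pow_dvd_pow 5 (Nat.le_succ i)).trans hc)
    rw [if_neg h, if_neg h2, stv_dg_same h]
    exact stv_ru (.r4a (dg v i))

/-- ordinary sweep -/
theorem stA {M v : ℕ} {j : Fin 300} {h : ℕ → Q p.toPar} (hM : 1 ≤ M) (hv : v + 1 < 5 ^ M)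
    (hh : Start .I1 (cen M v j) h) :
    (∀ t < 2 * (M + 1), WF p ((V p)^[t] h)) ∧
    (∀ i < M, (V p)^[2*(i+1)] h 0 = code p (.o, .e, .D (dg v i))) ∧
    Start .I1 (cen M (v+1) j) ((V p)^[2*(M+1)] h) := by
  obtain ⟨sg, hsg⟩ : ∃ sg : ℕ → Sym, ∀ i, sg i =
      if i = M + 1 then .D 0 else if 5 ^ i ∣ v + 1 then .I1 else .I0 := ⟨_, fun _ => rfl⟩
  obtain ⟨u, hu⟩ : ∃ u : ℕ → Sym, ∀ i, u i =
      if i = M + 1 then .J else .D (dg v (i - 1)) := ⟨_, fun _ => rfl⟩
  have hnd : ¬ 5 ^ M ∣ v + 1 := fun hc => by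
    have := Nat.le_of_dvd (by omega) hc
    omega
  have uJ : u (M + 1) = .J := by rw [hu]; simp
  have ulow : ∀ i < M, u (i + 1) = .D (dg v i) := by
    intro i hi
    rw [hu, if_neg (by omega), Nat.add_sub_cancel]
  have S : SweepData p (M + 1) sg (cen M v j) (cen M (v + 1) j) u := by
    refine stv_mk ?_ ⟨some 0, ?_⟩ ?_ (Or.inl uJ)
    · intro i hi
      by_cases hiM : i < M
      · rw [stv_cen_le (by omega), stv_cen_le (by omega), ulow i hiM, hsg, hsg,
          if_neg (show ¬ i = M + 1 by omega), if_neg (show ¬ i + 1 = M + 1 by omega)]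
        exact stv_carry
      · have hi' : i = M := by omega
        subst hi'
        rw [stv_cen_E, stv_cen_E, uJ, hsg, hsg, if_neg (by omega), if_neg hnd, if_pos rfl]
        exact stv_ru (.r5b j)
    · rw [hsg]; simp [gb]
    · intro k h1 h2
      obtain ⟨n, rfl⟩ : ∃ n, k = n + 1 := ⟨k - 1, by omega⟩
      exact ⟨some (dg v n), ulow n (by omega)⟩
  have hh' : Start (sg 0) (cen M v j) h := by
    have : sg 0 = .I1 := by
      rw [hsg, if_neg (by omega), if_pos (by simp)]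
    rw [this]
    exact hh
  obtain ⟨h1, h2, h3, h4⟩ := sweep S hh'
  refine ⟨h1, fun i hi => ?_, ?_, ?_⟩
  · rw [h2 (i + 1) (by omega) (by omega), ulow i hi]
  · rw [h3, uJ]
    exact stv_ru .r6b
  · intro i hi
    obtain ⟨g, hg⟩ := h4 i hi
    refine ⟨g, ?_⟩
    rw [hg]
    by_cases hL : i ≤ M + 1
    · rw [if_pos hL]
    · rw [if_neg hL, stv_cen_o (by omega), stv_cen_o (by omega)]

/-- first sweep after a move of the port -/
theorem stA' {M : ℕ} {j : Fin 300} {h : ℕ → Q p.toPar} (hM : 2 ≤ M)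
    (hh : Start .N4 (cen M (5^(M-1)) j) h) :
    (∀ t < 2 * (M + 1), WF p ((V p)^[t] h)) ∧
    Start .I1 (cen M (5^(M-1)+1) j) ((V p)^[2*(M+1)] h) := by
  set v := 5 ^ (M - 1) with hv
  have h5 : 5 ∣ v := dvd_pow_self 5 (by omega)
  have hnd : ∀ i, 1 ≤ i → ¬ 5 ^ i ∣ v + 1 := by
    intro i hi hc
    have h6 : 5 ∣ v + 1 := (dvd_pow_self 5 (by omega)).trans hc
    omega
  have hd0 : dg v 0 = 0 := by
    unfold dg
    rw [Fin.ext_iff]
    change (v / 5 ^ 0) % 5 = 0
    rw [pow_zero, Nat.div_one]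
    omega
  have hd1 : dg (v + 1) 0 = 1 := by
    rw [stv_dg_succ (by simp), hd0]
    rfl
  obtain ⟨sg, hsg⟩ : ∃ sg : ℕ → Sym, ∀ i, sg i =
      if i = 0 then .N4 else if i = M + 1 then .D 0 else .I0 := ⟨_, fun _ => rfl⟩
  obtain ⟨u, hu⟩ : ∃ u : ℕ → Sym, ∀ i, u i =
      if i = 1 then .D 2 else if i = M + 1 then .J else .D (dg v (i - 1)) := ⟨_, fun _ => rfl⟩
  have uJ : u (M + 1) = .J := by
    rw [hu, if_neg (by omega), if_pos rfl]
  have ulow : ∀ i < M, 1 ≤ i → u (i + 1) = .D (dg v i) := by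
    intro i hi hi1
    rw [hu, if_neg (by omega), if_neg (by omega), Nat.add_sub_cancel]
  have S : SweepData p (M + 1) sg (cen M v j) (cen M (v + 1) j) u := by
    refine stv_mk ?_ ⟨some 0, ?_⟩ ?_ (Or.inl uJ)
    · intro i hi
      rcases Nat.eq_zero_or_pos i with rfl | hi0
      · rw [stv_cen_le (by omega), stv_cen_le (by omega), hd0, hd1, hsg, hsg, hu,
          if_pos rfl, if_pos rfl, if_neg (by omega), if_neg (by omega)]
        exact stv_ru .r7c
      · by_cases hiM : i < M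
        · rw [stv_cen_le (by omega), stv_cen_le (by omega), ulow i hiM hi0,
            stv_dg_same (hnd i hi0), hsg, hsg, if_neg (show ¬ i = 0 by omega),
            if_neg (show ¬ i = M + 1 by omega), if_neg (show ¬ i + 1 = 0 by omega),
            if_neg (show ¬ i + 1 = M + 1 by omega)]
          exact stv_ru (.r4a (dg v i))
        · have hi' : i = M := by omega
          subst hi'
          rw [stv_cen_E, stv_cen_E, uJ, hsg, hsg, if_neg (show ¬ i = 0 by omega),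
            if_neg (show ¬ i = i + 1 by omega), if_neg (show ¬ i + 1 = 0 by omega), if_pos rfl]
          exact stv_ru (.r5b j)
    · rw [hsg]; simp [gb]
    · intro k h1 h2
      obtain ⟨n, rfl⟩ : ∃ n, k = n + 1 := ⟨k - 1, by omega⟩
      rcases Nat.eq_zero_or_pos n with rfl | hn
      · exact ⟨some 2, by rw [hu]; simp [gb]⟩
      · exact ⟨some (dg v n), ulow n (by omega) hn⟩
  have hh' : Start (sg 0) (cen M v j) h := by
    have : sg 0 = .N4 := by rw [hsg]; simp
    rw [this]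
    exact hh
  obtain ⟨h1, h2, h3, h4⟩ := sweep S hh'
  refine ⟨h1, ?_, ?_⟩
  · rw [h3, uJ]
    exact stv_ru .r6b
  · intro i hi
    obtain ⟨g, hg⟩ := h4 i hi
    refine ⟨g, ?_⟩
    rw [hg]
    by_cases hL : i ≤ M + 1
    · rw [if_pos hL]
    · rw [if_neg hL, stv_cen_o (by omega), stv_cen_o (by omega)]

/-- sweep with an overflow -/
theorem stv_BC {M v : ℕ} {j : Fin 300} {h : ℕ → Q p.toPar} (hM : 1 ≤ M) (hv : v + 1 = 5 ^ M)
    (hh : Start .I1 (cen M v j) h) :
    (∀ t < 2 * (M + 2), WF p ((V p)^[t] h)) ∧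
    (V p)^[2*(M+2)] h 0 = p.pi (code p (.o, .e, if j = 299 then .K else .J)) ∧
    ∀ i, 1 ≤ i → ∃ g, (V p)^[2*(M+2)] h i = code p (.o, cen (M+1) (v+1) (j+1) i, gb g) := by
  obtain ⟨sg, hsg⟩ : ∃ sg : ℕ → Sym, ∀ i, sg i =
      if i ≤ M then .I1 else if i = M + 1 then .N j else .o := ⟨_, fun _ => rfl⟩
  obtain ⟨u, hu⟩ : ∃ u : ℕ → Sym, ∀ i, u i =
      if i ≤ M then .D (dg v (i - 1)) else if i = M + 1 then .o else
        (if j = 299 then .K else .J) := ⟨_, fun _ => rfl⟩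
  have hdvd : ∀ i ≤ M, 5 ^ i ∣ v + 1 := fun i hi => hv ▸ pow_dvd_pow 5 hi
  have hdM : dg (v + 1) M = 1 := by
    unfold dg
    rw [hv, Nat.div_self (by positivity)]
    rfl
  have ulow : ∀ i < M, u (i + 1) = .D (dg v i) := by
    intro i hi
    rw [hu, if_pos (by omega), Nat.add_sub_cancel]
  have uM : u (M + 1) = .o := by
    rw [hu, if_neg (by omega), if_pos rfl]
  have uL : u (M + 1 + 1) = if j = 299 then .K else .J := by
    rw [hu, if_neg (by omega), if_neg (by omega)]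
  have S : SweepData p (M + 1 + 1) sg (cen M v j) (cen (M + 1) (v + 1) (j + 1)) u := by
    refine stv_mk ?_ ⟨none, ?_⟩ ?_ ?_
    · intro i hi
      by_cases hiM : i < M
      · rw [stv_cen_le (by omega), stv_cen_le (by omega), ulow i hiM, hsg, hsg,
          if_pos (show i ≤ M by omega), if_pos (show i + 1 ≤ M by omega)]
        have h1 := stv_carry (p := p) (v := v) (i := i)
        rw [if_pos (hdvd i (by omega)), if_pos (hdvd (i + 1) (by omega))] at h1
        exact h1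
      · by_cases hi' : i = M
        · subst hi'
          rw [stv_cen_E, stv_cen_le (by omega), hdM, uM, hsg, hsg, if_pos le_rfl,
            if_neg (show ¬ i + 1 ≤ i by omega), if_pos rfl]
          exact stv_ru (.r5c j)
        · have hi'' : i = M + 1 := by omega
          subst hi''
          rw [stv_cen_E, stv_cen_o (by omega), uL, hsg, hsg,
            if_neg (show ¬ M + 1 ≤ M by omega), if_pos rfl,
            if_neg (show ¬ M + 1 + 1 ≤ M by omega), if_neg (show ¬ M + 1 + 1 = M + 1 by omega)]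
          exact stv_ru (.r2 j)
    · rw [hsg, if_neg (by omega), if_neg (by omega)]
      rfl
    · intro k h1 h2
      obtain ⟨n, rfl⟩ : ∃ n, k = n + 1 := ⟨k - 1, by omega⟩
      by_cases hn : n < M
      · exact ⟨some (dg v n), ulow n hn⟩
      · have : n = M := by omega
        subst this
        exact ⟨none, uM⟩
    · rw [uL]
      split_ifs
      · right; rfl
      · left; rfl
  have hh' : Start (sg 0) (cen M v j) h := by
    have : sg 0 = .I1 := by rw [hsg]; simp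
    rw [this]
    exact hh
  obtain ⟨h1, h2, h3, h4⟩ := sweep S hh'
  refine ⟨h1, ?_, ?_⟩
  · rw [show M + 2 = M + 1 + 1 from rfl, h3, uL]
  · intro i hi
    obtain ⟨g, hg⟩ := h4 i hi
    refine ⟨g, ?_⟩
    rw [show M + 2 = M + 1 + 1 from rfl, hg]
    by_cases hL : i ≤ M + 1 + 1
    · rw [if_pos hL]
    · rw [if_neg hL, stv_cen_o (by omega), stv_cen_o (by omega)]

/-- sweep with an overflow, no move of the port -/
theorem stB {M v : ℕ} {j : Fin 300} {h : ℕ → Q p.toPar} (hM : 1 ≤ M) (hv : v + 1 = 5 ^ M)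
    (hj : j ≠ 299) (hh : Start .I1 (cen M v j) h) :
    (∀ t < 2 * (M + 2), WF p ((V p)^[t] h)) ∧
    Start .I1 (cen (M+1) (v+1) (j+1)) ((V p)^[2*(M+2)] h) := by
  obtain ⟨h1, h2, h3⟩ := stv_BC hM hv hh
  refine ⟨h1, ?_, h3⟩
  rw [h2, if_neg hj]
  exact stv_ru .r6b

/-- sweep with an overflow that clears the port -/
theorem stC {M v : ℕ} {h : ℕ → Q p.toPar} (hM : 1 ≤ M) (hv : v + 1 = 5 ^ M)
    (hh : Start .I1 (cen M v 299) h) :
    (∀ t < 2 * (M + 2), WF p ((V p)^[t] h)) ∧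
    (V p)^[2*(M+2)] h 0 = code p (.o, .o, .N2) ∧
    ∀ i, 1 ≤ i → ∃ g, (V p)^[2*(M+2)] h i = code p (.o, cen (M+1) (v+1) 0 i, gb g) := by
  obtain ⟨h1, h2, h3⟩ := stv_BC hM hv hh
  refine ⟨h1, ?_, ?_⟩
  · rw [h2, if_pos rfl]
    exact stv_ru .r6c
  · have e : (299 + 1 : Fin 300) = 0 := by decide
    rw [e] at h3
    exact h3

end H82R2.UPG
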