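import Pool.Agent.H82R2.UPG.Link
import Pool.Agent.H82R2.UPG.StV
import Pool.Agent.H82R2.UPG.StD

/-! Stage lemmas of the automaton. -/

namespace H82R2.UPG
open Classical
variable {p : WPar}

theorem cen_ne (M v : ℕ) (j : Fin 300) (i : ℕ) : cen M v j i ≠ .e := by
  unfold cen
  split_ifs <;> simp

theorem cc_ne {c : Cst} (h : c ≠ .e) : p.cc c ≠ p.e := fun h1 => h ((p.hcc c).1 h1)

theorem start_ne {s : Sym} {M v : ℕ} {j : Fin 300} {h : ℕ → Q p.toPar}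
    (hh : Start s (cen M v j) h) (i : ℕ) : (h (i+1)).2.1 ≠ p.e := by
  obtain ⟨g, hg⟩ := hh.2 (i+1) (by omega)
  rw [hg]
  exact cc_ne (cen_ne _ _ _ _)

theorem xe_D (d : Fin 5) : (xe p.toPar (none, code p (.o, .e, .D d))).1 = dec d := by
  have h1 : p.cc .e = p.e := (p.hcc .e).2 rfl
  simp [xe, xst, est, code, h1, p.hout]

theorem fA {P : ℤ} {M v : ℕ} {j : Fin 300} {x : ℤ → St p.toPar} (hM : 1 ≤ M)
    (hv : v + 1 < 5 ^ M) (hx : SC P M v j x) : SC P M (v+1) j ((F p.toPar)^[M+1] x) := by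
  obtain ⟨h, hx, hh⟩ := hx
  obtain ⟨h1, h2, h3⟩ := stA hM hv hh
  exact ⟨_, (link_iter (M+1) hx h1 (start_ne h3)).1, h3⟩

theorem fE {P : ℤ} {M v : ℕ} {j : Fin 300} {x : ℤ → St p.toPar} (k : ℕ) (hk : k ≤ M) (hM : 1 ≤ M)
    (hv : v + 1 < 5 ^ M) (hx : SC P M v j x) : left P ((F p.toPar)^[k] x) =
      run p.toPar (left P x) ((List.range k).map fun i => dec (dg v i)) := by
  obtain ⟨h, hx, hh⟩ := hx
  obtain ⟨h1, h2, h3⟩ := stA hM hv hh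
  have h4 := (link_iter k hx (fun t ht => h1 t (by omega))
    (fun i => (h1 (2*k) (by omega)).2 i)).2
  rw [h4]
  congr 1
  apply List.map_congr_left
  intro i hi
  rw [List.mem_range] at hi
  rw [h2 i (by omega), xe_D]

theorem fB {P : ℤ} {M v : ℕ} {j : Fin 300} {x : ℤ → St p.toPar} (hM : 1 ≤ M)
    (hv : v + 1 = 5 ^ M) (hj : j ≠ 299) (hx : SC P M v j x) :
    SC P (M+1) (v+1) (j+1) ((F p.toPar)^[M+2] x) := by
  obtain ⟨h, hx, hh⟩ := hx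
  obtain ⟨h1, h3⟩ := stB hM hv hj hh
  exact ⟨_, (link_iter (M+2) hx h1 (start_ne h3)).1, h3⟩

theorem fC {P : ℤ} {M v : ℕ} {x : ℤ → St p.toPar} (hM : 3 ≤ M)
    (hv : v + 1 = 5 ^ M) (hx : SC P M v 299 x) :
    ∃ t, SC (P+2) (M-1) (5^(M-2)+1) 0 ((F p.toPar)^[t] x) := by
  obtain ⟨h, hx, hh⟩ := hx
  obtain ⟨h1, h2, h3⟩ := stC (by omega) hv hh
  have hne : ∀ i, ((V p)^[2*(M+2)] h (i+1)).2.1 ≠ p.e := by
    intro i
    obtain ⟨g, hg⟩ := h3 (i+1) (by omega)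
    rw [hg]
    exact cc_ne (cen_ne _ _ _ _)
  have k1 := (link_iter (M+2) hx h1 hne).1
  obtain ⟨h', hh'⟩ : ∃ h', h' = (V p)^[2*(M+2)] h := ⟨_, rfl⟩
  rw [← hh'] at h2 h3 hne k1
  rw [hv] at h3
  obtain ⟨d1, d2⟩ := stD (M := M+1) (by omega) h2 h3
  have k2 := link_move k1 hne (fun i => d1 (i+1)) (fun i => start_ne d2 i)
  have e1 : M + 1 - 2 = M - 1 := by omega
  have e2 : M + 1 - 3 = M - 1 - 1 := by omega
  rw [e1, e2] at d2
  obtain ⟨a1, a2⟩ := stA' (by omega) d2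
  have k3 := (link_iter (M-1+1) k2 a1 (start_ne a2)).1
  have e3 : M - 2 = M - 1 - 1 := by omega
  rw [e3]
  refine ⟨(M-1+1) + (1 + (M+2)), _, ?_, a2⟩
  rw [Function.iterate_add_apply (F p.toPar) (M-1+1) (1+(M+2)) x,
    Function.iterate_add_apply (F p.toPar) 1 (M+2) x]
  exact k3

end H82R2.UPG
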