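import Pool.Agent.H82R2.UPG.StDef

/-! Stage lemmas of the writer (statements). -/

namespace H82R2.UPG
open Classical
variable {p : WPar}

/-- ordinary sweep -/
theorem stA {M v : ℕ} {j : Fin 300} {h : ℕ → Q p.toPar} (hM : 1 ≤ M) (hv : v + 1 < 5 ^ M)
    (hh : Start .I1 (cen M v j) h) :
    (∀ t < 2 * (M + 1), WF p ((V p)^[t] h)) ∧
    (∀ i < M, (V p)^[2*(i+1)] h 0 = code p (.o, .e, .D (dg v i))) ∧
    Start .I1 (cen M (v+1) j) ((V p)^[2*(M+1)] h) := sorry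

/-- first sweep after a move of the port -/
theorem stA' {M : ℕ} {j : Fin 300} {h : ℕ → Q p.toPar} (hM : 2 ≤ M)
    (hh : Start .N4 (cen M (5^(M-1)) j) h) :
    (∀ t < 2 * (M + 1), WF p ((V p)^[t] h)) ∧
    Start .I1 (cen M (5^(M-1)+1) j) ((V p)^[2*(M+1)] h) := sorry

/-- sweep with an overflow, no move of the port -/
theorem stB {M v : ℕ} {j : Fin 300} {h : ℕ → Q p.toPar} (hM : 1 ≤ M) (hv : v + 1 = 5 ^ M)
    (hj : j ≠ 299) (hh : Start .I1 (cen M v j) h) :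
    (∀ t < 2 * (M + 2), WF p ((V p)^[t] h)) ∧
    Start .I1 (cen (M+1) (v+1) (j+1)) ((V p)^[2*(M+2)] h) := sorry

/-- sweep with an overflow that clears the port -/
theorem stC {M v : ℕ} {h : ℕ → Q p.toPar} (hM : 1 ≤ M) (hv : v + 1 = 5 ^ M)
    (hh : Start .I1 (cen M v 299) h) :
    (∀ t < 2 * (M + 2), WF p ((V p)^[t] h)) ∧
    (V p)^[2*(M+2)] h 0 = code p (.o, .o, .N2) ∧
    ∀ i, 1 ≤ i → ∃ g, (V p)^[2*(M+2)] h i = code p (.o, cen (M+1) (v+1) 0 i, gb g) := sorry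

/-- the two steps of the move of the port -/
theorem stD {M : ℕ} {h : ℕ → Q p.toPar} (hM : 4 ≤ M) (h0 : h 0 = code p (.o, .o, .N2))
    (hh : ∀ i, 1 ≤ i → ∃ g, h i = code p (.o, cen M (5^(M-1)) 0 i, gb g)) :
    (∀ i, (V p h (i+1)).2.1 ≠ p.e) ∧
    Start .N4 (cen (M-2) (5^(M-3)) 0) (fun i => V p (fun i => V p h (i+1)) (i+1)) := sorry

end H82R2.UPG
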