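import Pool.Agent.H82R2.UPG.LinkS
import Pool.Agent.H82R2.UPG.StVS

/-! Stage lemmas of the automaton (statements). -/

namespace H82R2.UPG
open Classical
variable {p : WPar}

theorem fA {P : ℤ} {M v : ℕ} {j : Fin 300} {x : ℤ → St p.toPar} (hM : 1 ≤ M)
    (hv : v + 1 < 5 ^ M) (hx : SC P M v j x) : SC P M (v+1) j ((F p.toPar)^[M+1] x) := sorry

theorem fE {P : ℤ} {M v : ℕ} {j : Fin 300} {x : ℤ → St p.toPar} (k : ℕ) (hk : k ≤ M) (hM : 1 ≤ M)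
    (hv : v + 1 < 5 ^ M) (hx : SC P M v j x) : left P ((F p.toPar)^[k] x) =
      run p.toPar (left P x) ((List.range k).map fun i => dec (dg v i)) := sorry

theorem fB {P : ℤ} {M v : ℕ} {j : Fin 300} {x : ℤ → St p.toPar} (hM : 1 ≤ M)
    (hv : v + 1 = 5 ^ M) (hj : j ≠ 299) (hx : SC P M v j x) :
    SC P (M+1) (v+1) (j+1) ((F p.toPar)^[M+2] x) := sorry

theorem fC {P : ℤ} {M v : ℕ} {x : ℤ → St p.toPar} (hM : 3 ≤ M)
    (hv : v + 1 = 5 ^ M) (hx : SC P M v 299 x) :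
    ∃ t, SC (P+2) (M-1) (5^(M-2)+1) 0 ((F p.toPar)^[t] x) := sorry

end H82R2.UPG
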