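import Pool.Agent.H82R2.UPG.StF

/-! Digits can be prescribed; all stages are reached (helper25). -/

namespace H82R2.UPG
open Classical
variable {p : WPar}

/-- digits can be prescribed -/
theorem exists_dg (M : ℕ) (a : ℕ → Fin 5) : ∃ v, 5 ^ M ≤ v ∧ v + 1 < 5 ^ (M + 1) ∧
    ∀ i < M, dg v i = a i := by
  induction M generalizing a with
  | zero => exact ⟨1, by norm_num, by norm_num, fun i hi => absurd hi (Nat.not_lt_zero i)⟩
  | succ M ih =>
    obtain ⟨v', h1, h2, h3⟩ := ih (fun i => a (i + 1))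
    have ha : (a 0).val < 5 := (a 0).isLt
    have hdiv : ((a 0).val + 5 * v') / 5 = v' := by omega
    refine ⟨(a 0).val + 5 * v', ?_, ?_, ?_⟩
    · rw [pow_succ]; omega
    · rw [pow_succ]; omega
    · intro i hi
      cases i with
      | zero =>
        unfold dg
        rw [pow_zero, Nat.div_one]
        apply Fin.ext
        rw [Fin.val_ofNat]
        omega
      | succ i =>
        have h4 := h3 i (by omega)
        unfold dg at h4 ⊢
        rw [pow_succ', ← Nat.div_div_eq_div_mul, hdiv]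
        exact h4

theorem StG_iter {α : Type} (f : α → α) (s t : ℕ) (x : α) : f^[s] (f^[t] x) = f^[s + t] x :=
  (Function.iterate_add_apply f s t x).symm

theorem StG_up (x : ℤ → St p.toPar) (P : ℤ) (M : ℕ) (j : Fin 300) (hM : 1 ≤ M) (v d : ℕ)
    (hd : v + d < 5 ^ M) (h : ∃ t, SC P M v j ((F p.toPar)^[t] x)) :
    ∃ t, SC P M (v + d) j ((F p.toPar)^[t] x) := by
  induction d with
  | zero => exact h
  | succ d ih =>
    obtain ⟨t, ht⟩ := ih (by omega)
    have := fA (v := v + d) hM (by omega) ht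
    rw [StG_iter] at this
    exact ⟨_, this⟩

theorem StG_to (x : ℤ → St p.toPar) (P : ℤ) (M : ℕ) (j : Fin 300) (hM : 1 ≤ M) (v v' : ℕ)
    (hvv : v ≤ v') (hd : v' < 5 ^ M) (h : ∃ t, SC P M v j ((F p.toPar)^[t] x)) :
    ∃ t, SC P M v' j ((F p.toPar)^[t] x) := by
  obtain ⟨d, rfl⟩ := Nat.exists_eq_add_of_le hvv
  exact StG_up x P M j hM v d hd h

/-- one more digit -/
theorem StG_next (x : ℤ → St p.toPar) (P : ℤ) (M : ℕ) (j : Fin 300) (hM : 1 ≤ M) (v : ℕ)
    (hj : j ≠ 299) (hv : v < 5 ^ M) (h : ∃ t, SC P M v j ((F p.toPar)^[t] x)) :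
    ∃ t, SC P (M + 1) (5 ^ M) (j + 1) ((F p.toPar)^[t] x) := by
  have hpos : 1 ≤ 5 ^ M := Nat.one_le_pow _ _ (by norm_num)
  obtain ⟨t, ht⟩ := StG_to x P M j hM v (5 ^ M - 1) (by omega) (by omega) h
  have := fB (v := 5 ^ M - 1) hM (by omega) hj ht
  rw [StG_iter] at this
  rw [Nat.sub_add_cancel hpos] at this
  exact ⟨_, this⟩

/-- the end of a stage -/
theorem StG_end (x : ℤ → St p.toPar) (P : ℤ) (M : ℕ) (hM : 3 ≤ M) (v : ℕ)
    (hv : v < 5 ^ M) (h : ∃ t, SC P M v 299 ((F p.toPar)^[t] x)) :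
    ∃ t, SC (P + 2) (M - 1) (5 ^ (M - 2) + 1) 0 ((F p.toPar)^[t] x) := by
  have hpos : 1 ≤ 5 ^ M := Nat.one_le_pow _ _ (by norm_num)
  obtain ⟨t, ht⟩ := StG_to x P M 299 (by omega) v (5 ^ M - 1) (by omega) (by omega) h
  obtain ⟨s, hs⟩ := fC (v := 5 ^ M - 1) hM (by omega) ht
  rw [StG_iter] at hs
  exact ⟨_, hs⟩

theorem StG_row (x : ℤ → St p.toPar) (P : ℤ) (M : ℕ) (hM : 1 ≤ M) (v : ℕ)
    (hv : v < 5 ^ M) (h : ∃ t, SC P M v 1 ((F p.toPar)^[t] x)) (m : ℕ) (hm : m ≤ 298) :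
    ∃ w, w < 5 ^ (M + m) ∧ ∃ t, SC P (M + m) w (Fin.ofNat 300 (m + 1)) ((F p.toPar)^[t] x) := by
  induction m with
  | zero => exact ⟨v, hv, h⟩
  | succ m ih =>
    obtain ⟨w, hw, h1⟩ := ih (by omega)
    have hne : Fin.ofNat 300 (m + 1) ≠ 299 := by
      intro h2
      have h3 := congrArg Fin.val h2
      rw [Fin.val_ofNat] at h3
      have h4 : (299 : Fin 300).val = 299 := rfl
      rw [h4] at h3
      omega
    have h2 := StG_next x P (M + m) _ (by omega) w hne hw h1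
    refine ⟨5 ^ (M + m), ?_, ?_⟩
    · exact Nat.pow_lt_pow_right (by norm_num) (by omega)
    · have h3 : Fin.ofNat 300 (m + 1) + 1 = Fin.ofNat 300 (m + 1 + 1) := by
        apply Fin.ext
        rw [Fin.val_add, Fin.val_ofNat, Fin.val_ofNat]
        have h4 : (1 : Fin 300).val = 1 := rfl
        rw [h4]
        omega
      rw [h3] at h2
      exact h2

theorem StG_start (x : ℤ → St p.toPar) (hx : SC 0 30 (5^29) 0 x) (k : ℕ) :
    ∃ v, v < 5 ^ (30 + 298 * k) ∧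
      ∃ t, SC (2 * (k : ℤ)) (30 + 298 * k) v 0 ((F p.toPar)^[t] x) := by
  induction k with
  | zero =>
    refine ⟨5 ^ 29, ?_, 0, ?_⟩
    · exact Nat.pow_lt_pow_right (by norm_num) (by omega)
    · rw [Nat.cast_zero, mul_zero, mul_zero, add_zero]
      exact hx
  | succ k ih =>
    obtain ⟨v, hv, h1⟩ := ih
    have h2 := StG_next x (2 * (k : ℤ)) (30 + 298 * k) 0 (by omega) v (by decide) hv h1
    rw [zero_add] at h2
    obtain ⟨w, hw, h3⟩ := StG_row x (2 * (k : ℤ)) (30 + 298 * k + 1) (by omega) _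
      (Nat.pow_lt_pow_right (by norm_num) (by omega)) h2 298 le_rfl
    have h4 := StG_end x (2 * (k : ℤ)) (30 + 298 * k + 1 + 298) (by omega) w hw h3
    have e1 : 30 + 298 * k + 1 + 298 - 1 = 30 + 298 * (k + 1) := by omega
    have e2 : 30 + 298 * k + 1 + 298 - 2 = 29 + 298 * (k + 1) := by omega
    have e3 : 2 * (k : ℤ) + 2 = 2 * ((k + 1 : ℕ) : ℤ) := by push_cast; ring
    rw [e1, e2, e3] at h4
    refine ⟨_, ?_, h4⟩
    have e4 : 30 + 298 * (k + 1) = 29 + 298 * (k + 1) + 1 := by omega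
    rw [e4, pow_succ]
    have h6 : 1 ≤ 5 ^ (29 + 298 * (k + 1)) := Nat.one_le_pow _ _ (by norm_num)
    generalize 5 ^ (29 + 298 * (k + 1)) = z at h6 ⊢
    omega

/-- all stages are reached -/
theorem stages (x : ℤ → St p.toPar) (hx : SC 0 30 (5^29) 0 x) (k v : ℕ)
    (h1 : 5 ^ (30 + 298 * k) ≤ v) (h2 : v < 5 ^ (30 + 298 * k + 1)) :
    ∃ t, SC (2*k) (30 + 298*k + 1) v 1 ((F p.toPar)^[t] x) := by
  obtain ⟨w, hw, h3⟩ := StG_start x hx k
  have h4 := StG_next x (2 * (k : ℤ)) (30 + 298 * k) 0 (by omega) w (by decide) hw h3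
  rw [zero_add] at h4
  exact StG_to x _ _ 1 (by omega) _ v h1 h2 h4

end H82R2.UPG
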