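import Pool.Agent.H82R2.UPG.StFS
import Pool.Agent.H82R2.UPG.RegionS

/-! Final assembly (statements). -/

namespace H82R2.UPG
open Classical
variable {p : WPar}

/-- digits can be prescribed -/
theorem exists_dg (M : ℕ) (a : ℕ → Fin 5) : ∃ v, 5 ^ M ≤ v ∧ v + 1 < 5 ^ (M + 1) ∧
    ∀ i < M, dg v i = a i := sorry

/-- the initial configuration -/
theorem exists_init (p : WPar) : ∃ x : ℤ → St p.toPar,
    {i | x i ≠ (none, p.cs .o, p.cc .o, p.cs .o)}.Finite ∧ SC 0 30 (5^29) 0 x := sorry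

/-- all stages are reached -/
theorem stages (x : ℤ → St p.toPar) (hx : SC 0 30 (5^29) 0 x) (k v : ℕ)
    (h1 : 5 ^ (30 + 298 * k) ≤ v) (h2 : v < 5 ^ (30 + 298 * k + 1)) :
    ∃ t, SC (2*k) (30 + 298*k + 1) v 1 ((F p.toPar)^[t] x) := sorry

/-- the main theorem for the automaton `F` -/
theorem main (x : ℤ → St p.toPar) (hx : SC 0 30 (5^29) 0 x) (w : List (St p.toPar)) (i : ℤ) :
    ∃ n, ∀ j (hj : j < w.length), (F p.toPar)^[n] x (i + j) = w[j] := sorry

end H82R2.UPG
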