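import Pool.Agent.H82R2.UPG.Defs

/-!
The rules of the writer, and the parameters that realise them.
-/

namespace H82R2.UPG
open Classical

/-- moving symbols -/
inductive Sym
  | o | D (d : Fin 5) | I0 | I1 | J | K | N2 | N3 | N4 | N (j : Fin 300)
deriving DecidableEq

/-- centres -/
inductive Cst
  | o | e | m (d : Fin 5) | E (j : Fin 300)
deriving DecidableEq

/-- left register, centre, right register -/
abbrev Tri := Sym × Cst × Sym

/-- garbage symbols -/
def gb : Option (Fin 5) → Sym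
  | none => Sym.o
  | some d => Sym.D d

/-- rule instances -/
inductive Rule
  | r1 (x : Option (Fin 5))
  | r2 (j : Fin 300)
  | r3 (x : Option (Fin 5)) (d : Fin 5) (y : Option (Fin 5))
  | r3J (x : Option (Fin 5)) (d : Fin 5)
  | r3K (x : Option (Fin 5)) (d : Fin 5)
  | r4a (d : Fin 5)
  | r4b (d : Fin 5)
  | r5a (x : Option (Fin 5)) (j : Fin 300)
  | r5b (j : Fin 300)
  | r5c (j : Fin 300)
  | r6a (y : Option (Fin 5))
  | r6b
  | r6c
  | r7a
  | r7b
  | r7c

/-- inputs: from the left, centre, from the right -/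
def lhs : Rule → Tri
  | .r1 x => (gb x, .o, .o)
  | .r2 j => (.N j, .o, .o)
  | .r3 x d y => (gb x, .m d, gb y)
  | .r3J x d => (gb x, .m d, .J)
  | .r3K x d => (gb x, .m d, .K)
  | .r4a d => (.I0, .m d, .o)
  | .r4b d => (.I1, .m d, .o)
  | .r5a x j => (gb x, .E j, .o)
  | .r5b j => (.I0, .E j, .o)
  | .r5c j => (.I1, .E j, .o)
  | .r6a y => (.o, .e, gb y)
  | .r6b => (.o, .e, .J)
  | .r6c => (.o, .e, .K)
  | .r7a => (.N2, .m 0, .o)
  | .r7b => (.N3, .m 0, .o)
  | .r7c => (.N4, .m 0, .o)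

/-- outputs: to the left, new centre, to the right -/
def rhs : Rule → Tri
  | .r1 x => (.o, .o, gb x)
  | .r2 j => (if j = 299 then .K else .J, .E (j + 1), .o)
  | .r3 x d y => (gb y, .m d, gb x)
  | .r3J x d => (.J, .m d, gb x)
  | .r3K x d => (.K, .m d, gb x)
  | .r4a d => (.D d, .m d, .I0)
  | .r4b d => (.D d, .m (d + 1), if d = 4 then .I1 else .I0)
  | .r5a x j => (.o, .E j, gb x)
  | .r5b j => (.J, .E j, .D 0)
  | .r5c j => (.o, .m 1, .N j)
  | .r6a y => (.o, .e, gb y)
  | .r6b => (.o, .e, .I1)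
  | .r6c => (.o, .o, .N2)
  | .r7a => (.o, .o, .N3)
  | .r7b => (.o, .e, .N4)
  | .r7c => (.D 2, .m 1, .I0)

/-- the token emitted for a digit -/
def dec : Fin 5 → Tok := ![none, some (false, false), some (false, true), some (true, false), some (true, true)]

/-- parameters realising the rules -/
structure WPar extends Par where
  finW : Finite W
  hn : n = 27
  cs : Sym → W
  cc : Cst → W
  hcc : ∀ c, cc c = e ↔ c = Cst.e
  hrule : ∀ r : Rule, pi (cs (lhs r).1, cc (lhs r).2.1, cs (lhs r).2.2) =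
    (cs (rhs r).1, cc (rhs r).2.1, cs (rhs r).2.2)
  hout : ∀ d, out (cs (Sym.D d)) = dec d

theorem dec_surjective : Function.Surjective dec := by
  intro t
  rcases t with _ | ⟨_ | _, _ | _⟩
  · exact ⟨0, rfl⟩
  · exact ⟨1, rfl⟩
  · exact ⟨2, rfl⟩
  · exact ⟨3, rfl⟩
  · exact ⟨4, rfl⟩

end H82R2.UPG
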