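import Pool.Agent.H82R2.UPG.Tab

namespace H82R2.UPG
open Classical

theorem lhs_injective : Function.Injective lhs := sorry

theorem rhs_injective : Function.Injective rhs := sorry

/-- two injective families in a finite type are related by a permutation -/
theorem exists_perm {R Q : Type} [Finite Q] (f g : R → Q) (hf : Function.Injective f)
    (hg : Function.Injective g) : ∃ π : Equiv.Perm Q, ∀ r, π (f r) = g r := sorry

/-- the queue: `27` bits -/
theorem exists_queue : ∃ (xi : Equiv.Perm (Bool × (Fin 512 × Fin 512 × Fin 512))),
    xi (false, 0) = (false, 0) ∧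
    (∀ q, (fun q => (xi (false, q)).2)^[27] q = 0) ∧
    (∀ q, (fun q => (xi.symm (false, q)).2)^[27] q = 0) := sorry

theorem exists_WPar : Nonempty WPar := sorry

end H82R2.UPG
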