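import Pool.Agent.H82R2.UPG.Tab

/-!
Task U5 (helper959): the parameters exist.
-/

namespace H82R2.UPG
open Classical

namespace WPX

/-- codes of the moving symbols -/
def csN : Sym → ℕ
  | .o => 0
  | .D d => 1 + d
  | .I0 => 6
  | .I1 => 7
  | .J => 8
  | .K => 9
  | .N2 => 10
  | .N3 => 11
  | .N4 => 12
  | .N j => 13 + j

/-- codes of the centres -/
def ccN : Cst → ℕ
  | .o => 0
  | .e => 1
  | .m d => 2 + d
  | .E j => 7 + j

theorem csN_lt (s : Sym) : csN s < 512 := by
  cases s with
  | D d => have := d.2; simp only [csN]; omega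
  | N j => have := j.2; simp only [csN]; omega
  | _ => simp only [csN]; omega

theorem ccN_lt (s : Cst) : ccN s < 512 := by
  cases s with
  | m d => have := d.2; simp only [ccN]; omega
  | E j => have := j.2; simp only [ccN]; omega
  | _ => simp only [ccN]; omega

theorem csN_inj : Function.Injective csN := by
  intro a b h
  cases a <;> cases b <;> simp only [csN] at h <;>
    first
      | rfl
      | (rename_i x y; have hx := x.2; have hy := y.2;
         first
           | (have hxy : x = y := Fin.ext (by omega); rw [hxy])
           | (exfalso; omega))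
      | (rename_i x; have hx := x.2; exfalso; omega)
      | (exfalso; omega)

theorem ccN_inj : Function.Injective ccN := by
  intro a b h
  cases a <;> cases b <;> simp only [ccN] at h <;>
    first
      | rfl
      | (rename_i x y; have hx := x.2; have hy := y.2;
         first
           | (have hxy : x = y := Fin.ext (by omega); rw [hxy])
           | (exfalso; omega))
      | (rename_i x; have hx := x.2; exfalso; omega)
      | (exfalso; omega)

/-- codes of the moving symbols -/
def cs (s : Sym) : Fin 512 := ⟨csN s, csN_lt s⟩

/-- codes of the centres -/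
def cc (s : Cst) : Fin 512 := ⟨ccN s, ccN_lt s⟩

theorem cs_inj : Function.Injective cs := fun a b h => csN_inj (congrArg Fin.val h)

theorem cc_inj : Function.Injective cc := fun a b h => ccN_inj (congrArg Fin.val h)

/-- codes of the triples -/
def ct (t : Tri) : Fin 512 × Fin 512 × Fin 512 := (cs t.1, cc t.2.1, cs t.2.2)

theorem ct_inj : Function.Injective ct := by
  intro a b h
  unfold ct at h
  have h1 := congrArg Prod.fst h
  have h2 := congrArg (fun q => q.2.1) h
  have h3 := congrArg (fun q => q.2.2) h
  exact Prod.ext (cs_inj h1) (Prod.ext (cc_inj h2) (cs_inj h3))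

end WPX

theorem exists_WPar_of (hl : Function.Injective lhs) (hr : Function.Injective rhs)
    (hp : ∀ (R Q : Type) [Finite Q] (f g : R → Q), Function.Injective f →
      Function.Injective g → ∃ π : Equiv.Perm Q, ∀ r, π (f r) = g r)
    (hq : ∃ (xi : Equiv.Perm (Bool × (Fin 512 × Fin 512 × Fin 512))),
      xi (false, 0) = (false, 0) ∧
      (∀ q, (fun q => (xi (false, q)).2)^[27] q = 0) ∧
      (∀ q, (fun q => (xi.symm (false, q)).2)^[27] q = 0)) : Nonempty WPar := by
  obtain ⟨π, hπ⟩ := hp Rule (Fin 512 × Fin 512 × Fin 512) (fun r => WPX.ct (lhs r))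
    (fun r => WPX.ct (rhs r)) (WPX.ct_inj.comp hl) (WPX.ct_inj.comp hr)
  obtain ⟨xi, h1, h2, h3⟩ := hq
  exact ⟨{
    W := Fin 512
    e := WPX.cc .e
    out := fun w => if h : ∃ d, w = WPX.cs (.D d) then dec h.choose else none
    pi := π
    xi := xi
    q0 := 0
    n := 27
    hxi0 := h1
    hfw := h2
    hbw := h3
    hq0 := by
      intro h
      have := congrArg Fin.val h
      simp [WPX.cc, WPX.ccN] at this
    finW := inferInstance
    hn := rfl
    cs := WPX.cs
    cc := WPX.cc
    hcc := fun c => ⟨fun h => WPX.cc_inj h, fun h => by rw [h]⟩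
    hrule := fun r => hπ r
    hout := by
      intro d
      have hex : ∃ d', WPX.cs (.D d) = WPX.cs (.D d') := ⟨d, rfl⟩
      show (if h : ∃ d', WPX.cs (.D d) = WPX.cs (.D d') then dec h.choose else none) = dec d
      rw [dif_pos hex]
      have h5 := WPX.cs_inj hex.choose_spec
      have h6 : d = hex.choose := by
        injection h5
      rw [← h6]
  }⟩

end H82R2.UPG
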