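import Pool.Agent.H82R2.UPG.Tab

/-!
The evolution of the writer (half line of cells, cell `0` is the port).
-/

namespace H82R2.UPG
open Classical
variable (p : WPar)

/-- encoded triples -/
def code (t : Tri) : Q p.toPar := (p.cs t.1, p.cc t.2.1, p.cs t.2.2)

/-- the cell permutation sends the triple `a` to `b` -/
def Ru (a b : Tri) : Prop := p.pi (code p a) = code p b

/-- one `T`-step of the writer -/
def V (h : ℕ → Q p.toPar) : ℕ → Q p.toPar
  | 0 => p.pi ((h 0).1, (h 0).2.1, (h 1).1)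
  | i+1 => p.pi ((h i).2.2, (h (i+1)).2.1, (h (i+2)).1)

/-- a sweep over the cells `1, …, L`: signals `sg`, centres before `c` and after `c'`, released
left-moving symbols `u` -/
structure SweepData (L : ℕ) (sg : ℕ → Sym) (c c' : ℕ → Cst) (u : ℕ → Sym) : Prop where
  hL : 1 ≤ L
  act : ∀ i < L, Ru p (sg i, c (i+1), .o) (u (i+1), c' (i+1), sg (i+1))
  hs : ∃ g, sg L = gb g
  tr1 : ∀ i, 1 ≤ i → i ≤ L → ∀ x, Ru p (gb x, c' i, .o) (.o, c' i, gb x)
  tr2 : ∀ i k, 1 ≤ i → i < k → k ≤ L → ∀ x, Ru p (gb x, c' i, u k) (u k, c' i, gb x)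
  tr4 : ∀ i, 1 ≤ i → ∀ x, Ru p (gb x, c i, .o) (.o, c i, gb x)
  pt : ∀ k, 1 ≤ k → k < L → ∃ g, u k = gb g
  pt' : ∀ g, Ru p (.o, .e, gb g) (.o, .e, gb g)
  ne : ∀ i, 1 ≤ i → c i ≠ .e ∧ c' i ≠ .e

/-- the centres are fine for a writer with a port at `0` -/
def WF (h : ℕ → Q p.toPar) : Prop := (h 0).2.1 = p.e ∧ ∀ i, (h (i+1)).2.1 ≠ p.e

variable {p}

/-- configuration at the start of a sweep -/
def Start (s0 : Sym) (c : ℕ → Cst) (h : ℕ → Q p.toPar) : Prop :=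
  h 0 = code p (.o, .e, s0) ∧ ∀ i, 1 ≤ i → ∃ g, h i = code p (.o, c i, gb g)

end H82R2.UPG
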