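import Pool.Agent.H82R2.UPG.Wr

namespace H82R2.UPG
open Classical
variable {p : WPar}

theorem sweep {L : ℕ} {sg : ℕ → Sym} {c c' : ℕ → Cst} {u : ℕ → Sym}
    (S : SweepData p L sg c c' u) {h : ℕ → Q p.toPar} (hh : Start (sg 0) c h) :
    (∀ t < 2 * L, WF p ((V p)^[t] h)) ∧
    (∀ i, 1 ≤ i → i < L → (V p)^[2*i] h 0 = code p (.o, .e, u i)) ∧
    (V p)^[2*L] h 0 = p.pi (code p (.o, .e, u L)) ∧
    (∀ j, 1 ≤ j → ∃ g, (V p)^[2*L] h j = code p (.o, if j ≤ L then c' j else c j, gb g)) := sorry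

end H82R2.UPG
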